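import Pool.Agent.NH3.LT.DM

set_option autoImplicit false

/-!
# Lehmer numbers in residue classes and short intervals
-/

namespace Pool.Agent.NH3.LT

open Finset Pool.Agent.H95R2.Leh

open Classical in
/-- the Lehmer numbers in `(x, x + y]` in the class `b mod m` with at most `K` prime factors -/
noncomputable def SB (x y m K : ℕ) (b : ℤ) : Finset ℕ :=
  (Ioc x (x + y)).filter (fun n => Leh n ∧ n.primeFactors.card ≤ K ∧ (m : ℤ) ∣ (n : ℤ) - b)

theorem mem_SB {x y m K n : ℕ} {b : ℤ} : n ∈ SB x y m K b ↔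
    (x < n ∧ n ≤ x + y) ∧ Leh n ∧ n.primeFactors.card ≤ K ∧ (m : ℤ) ∣ (n : ℤ) - b := by
  classical
  unfold SB
  rw [mem_filter, mem_Ioc]

theorem gcd_dvd_of_mem {x y m K n : ℕ} {b : ℤ} (hn : n ∈ SB x y m K b) : Int.gcd m b ∣ n := by
  have h1 := (mem_SB.1 hn).2.2.2
  have h2 : ((Int.gcd m b : ℕ) : ℤ) ∣ (n : ℤ) := by
    have h3 : ((Int.gcd m b : ℕ) : ℤ) ∣ (m : ℤ) := Int.gcd_dvd_left _ _
    have h4 : ((Int.gcd m b : ℕ) : ℤ) ∣ b := Int.gcd_dvd_right _ _
    have h5 := dvd_add (h3.trans h1) h4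
    simpa using h5
  exact_mod_cast h2

theorem cls_bound {x y m K : ℕ} {b : ℤ} (hm : 1 ≤ m) (d : ℕ) (hd : 1 ≤ d) :
    ∃ L : ℕ, 1 ≤ L ∧ m * (d * d.totient) ≤ (Int.gcd m b * Int.gcd m (b - 1)) * L ∧
      ((SB x y m K b).filter (fun n => d ∣ n)).card ≤ y / L + 1 := by
  classical
  have hφ : 0 < d.totient := Nat.totient_pos.2 hd
  have ha1 : 0 < Int.gcd m b := Int.gcd_pos_of_ne_zero_left _ (by exact_mod_cast (by omega : m ≠ 0))
  have hg1 : 0 < Int.gcd m (b - 1) :=
    Int.gcd_pos_of_ne_zero_left _ (by exact_mod_cast (by omega : m ≠ 0))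
  by_cases hem : (SB x y m K b).filter (fun n => d ∣ n) = ∅
  · refine ⟨m * (d * d.totient), Nat.mul_pos hm (Nat.mul_pos hd hφ), ?_, ?_⟩
    · exact Nat.le_mul_of_pos_left _ (Nat.mul_pos ha1 hg1)
    · rw [hem, card_empty]
      exact Nat.zero_le _
  · obtain ⟨n0, hn0⟩ := Finset.nonempty_iff_ne_empty.mpr hem
    obtain ⟨hn0S, hdn0⟩ := mem_filter.1 hn0
    obtain ⟨-, hl0, -, hm0⟩ := mem_SB.1 hn0S
    have hn01 := hl0.1
    obtain ⟨f1, f2, f3, f4⟩ := dvd_facts hl0 hdn0
    refine ⟨Nat.lcm m (d * d.totient), Nat.lcm_pos hm (Nat.mul_pos hd hφ), ?_, ?_⟩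
    · rw [← Nat.gcd_mul_lcm m (d * d.totient)]
      apply Nat.mul_le_mul_right
      apply Nat.le_of_dvd (Nat.mul_pos ha1 hg1)
      refine (Nat.gcd_mul_right_dvd_mul_gcd m d d.totient).trans (Nat.mul_dvd_mul ?_ ?_)
      · have h1 : ((Nat.gcd m d : ℕ) : ℤ) ∣ (m : ℤ) := by exact_mod_cast Nat.gcd_dvd_left m d
        have h2 : ((Nat.gcd m d : ℕ) : ℤ) ∣ (n0 : ℤ) := by
          exact_mod_cast (Nat.gcd_dvd_right m d).trans hdn0
        have h3 : ((Nat.gcd m d : ℕ) : ℤ) ∣ b := by
          have h4 := dvd_sub h2 (h1.trans hm0)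
          simpa using h4
        exact Int.dvd_gcd h1 h3
      · have h1 : ((Nat.gcd m d.totient : ℕ) : ℤ) ∣ (m : ℤ) := by
          exact_mod_cast Nat.gcd_dvd_left m d.totient
        have h2 : ((Nat.gcd m d.totient : ℕ) : ℤ) ∣ (n0 : ℤ) - 1 := by
          have h5 : Nat.gcd m d.totient ∣ n0 - 1 := (Nat.gcd_dvd_right m d.totient).trans f4
          have h6 : ((n0 : ℤ) - 1) = ((n0 - 1 : ℕ) : ℤ) := by
            push_cast [Nat.cast_sub hn01.le]; ring
          rw [h6]
          exact_mod_cast h5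
        have h3 : ((Nat.gcd m d.totient : ℕ) : ℤ) ∣ b - 1 := by
          have h4 := dvd_sub h2 (h1.trans hm0)
          have h5 : (n0 : ℤ) - 1 - ((n0 : ℤ) - b) = b - 1 := by ring
          rwa [h5] at h4
        exact Int.dvd_gcd h1 h3
    · apply Pool.Agent.Y928.LS.card_short
      · exact Nat.lcm_pos hm (Nat.mul_pos hd hφ)
      · intro n hn
        exact (mem_SB.1 (mem_filter.1 hn).1).1
      · intro n hn n' hn'
        obtain ⟨hnS, hdn⟩ := mem_filter.1 hn
        obtain ⟨hnS', hdn'⟩ := mem_filter.1 hn'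
        obtain ⟨-, hl, -, hmn⟩ := mem_SB.1 hnS
        obtain ⟨-, hl', -, hmn'⟩ := mem_SB.1 hnS'
        have e1 := dvd_facts hl hdn
        have e2 := dvd_facts hl' hdn'
        have h1 : n ≡ n' [MOD d] := ((Nat.modEq_zero_iff_dvd).2 hdn).trans
          ((Nat.modEq_zero_iff_dvd).2 hdn').symm
        have h2 : n ≡ n' [MOD d.totient] := by
          have g1 : 1 ≡ n [MOD d.totient] := (Nat.modEq_iff_dvd' hl.1.le).2 e1.2.2.2
          have g2 : 1 ≡ n' [MOD d.totient] := (Nat.modEq_iff_dvd' hl'.1.le).2 e2.2.2.2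
          exact g1.symm.trans g2
        have h3 : n ≡ n' [MOD d * d.totient] :=
          (Nat.modEq_and_modEq_iff_modEq_mul f3).1 ⟨h1, h2⟩
        rw [Nat.modEq_iff_dvd] at h3 ⊢
        have h4 : (m : ℤ) ∣ (n' : ℤ) - n := by
          have := dvd_sub hmn' hmn
          have h5 : (n' : ℤ) - b - (n - b) = n' - n := by ring
          rwa [h5] at this
        exact Int.natCast_dvd.2 (Nat.lcm_dvd (Int.natCast_dvd.1 h4) (Int.natCast_dvd.1 h3))

/-- **Lehmer numbers in residue classes and short intervals.** -/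
theorem ap_count : ∃ C : ℝ, 1 ≤ C ∧ ∀ (x y m K : ℕ) (b : ℤ), 1 ≤ y → 1 ≤ m → 1 ≤ K →
    ((SB x y m K b).card : ℝ) ≤ C * Real.sqrt ((y : ℝ) * K * Int.gcd m (b - 1) * Int.gcd m b /
      (m * Nat.totient (Int.gcd m b))) + 1 := by
  classical
  obtain ⟨C, hC, htail⟩ := tail_real
  refine ⟨16 * C + 2, by linarith, ?_⟩
  intro x y m K b hy hm hK
  obtain ⟨a, ha⟩ : ∃ a : ℕ, a = Int.gcd m b := ⟨_, rfl⟩
  obtain ⟨g, hg⟩ : ∃ g : ℕ, g = Int.gcd m (b - 1) := ⟨_, rfl⟩
  have ha1 : 1 ≤ a := by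
    rw [ha]; exact Int.gcd_pos_of_ne_zero_left _ (by exact_mod_cast (by omega : m ≠ 0))
  have hg1 : 1 ≤ g := by
    rw [hg]; exact Int.gcd_pos_of_ne_zero_left _ (by exact_mod_cast (by omega : m ≠ 0))
  have hall : ∀ n ∈ SB x y m K b, a ∣ n := fun n hn => by rw [ha]; exact gcd_dvd_of_mem hn
  rw [← ha, ← hg]
  have hφa : 1 ≤ a.totient := Nat.totient_pos.2 ha1
  have hyR : (1 : ℝ) ≤ y := by exact_mod_cast hy
  have hmR : (1 : ℝ) ≤ m := by exact_mod_cast hm
  have hKR : (1 : ℝ) ≤ K := by exact_mod_cast hK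
  have haR : (1 : ℝ) ≤ a := by exact_mod_cast ha1
  have hgR : (1 : ℝ) ≤ g := by exact_mod_cast hg1
  have hφR : (1 : ℝ) ≤ a.totient := by exact_mod_cast hφa
  obtain ⟨w, hw⟩ : ∃ w : ℝ, w = Real.sqrt ((y : ℝ) * K * g * a / (m * Nat.totient a)) := ⟨_, rfl⟩
  rw [← hw]
  have hw0 : 0 < w := by rw [hw]; apply Real.sqrt_pos.2; positivity
  have hww : w * w = (y : ℝ) * K * g * a / (m * Nat.totient a) := by
    rw [hw]; exact Real.mul_self_sqrt (by positivity)
  rcases lt_or_ge w 1 with hw1 | hw1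
  · -- at most one element
    obtain ⟨L, hL1, hL2, hL3⟩ := cls_bound (x := x) (y := y) (K := K) (b := b) hm a ha1
    rw [← ha, ← hg] at hL2
    have h1 : (SB x y m K b).filter (fun n => a ∣ n) = SB x y m K b := by
      rw [filter_eq_self]
      exact hall
    rw [h1] at hL3
    have h2 : y < L := by
      have h3 : (y : ℝ) * K * g * a / (m * Nat.totient a) < 1 := by
        rw [← hww]; nlinarith
      rw [div_lt_one (by positivity)] at h3
      have h4 : (m : ℝ) * (a * a.totient) ≤ (a * g) * L := by exact_mod_cast hL2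
      have h5 : (y : ℝ) < L := by
        by_contra hcon
        rw [not_lt] at hcon
        have h6 : (a * g : ℝ) * L ≤ (a * g) * y := mul_le_mul_of_nonneg_left hcon (by positivity)
        have h7 : (a : ℝ) * (m * a.totient) ≤ a * (y * g) := by linarith
        have h8 : (m : ℝ) * a.totient ≤ y * g := le_of_mul_le_mul_left h7 (by linarith)
        have h9 : (y : ℝ) * g ≤ y * K * g * a := by
          have : (1 : ℝ) ≤ K * a := by nlinarith
          calc (y : ℝ) * g = y * g * 1 := by ring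
            _ ≤ y * g * (K * a) := mul_le_mul_of_nonneg_left this (by positivity)
            _ = _ := by ring
        linarith
      exact_mod_cast h5
    rw [Nat.div_eq_of_lt h2] at hL3
    have h3 : ((SB x y m K b).card : ℝ) ≤ 1 := by exact_mod_cast hL3
    have h4 : 0 ≤ (16 * C + 2) * w := by positivity
    linarith
  · obtain ⟨z, hz⟩ : ∃ z : ℝ, z = a * w := ⟨_, rfl⟩
    have hza : (a : ℝ) ≤ z := by rw [hz]; nlinarith
    have hz0 : 0 < z := by linarith
    obtain ⟨Z, hZ⟩ : ∃ Z : ℕ, Z = ⌊z⌋₊ := ⟨_, rfl⟩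
    have hZz : (Z : ℝ) ≤ z := by rw [hZ]; exact Nat.floor_le hz0.le
    obtain ⟨U, hU⟩ : ∃ U : ℝ, U = z / (16 * K * a * a) := ⟨_, rfl⟩
    have hU0 : 0 < U := by rw [hU]; positivity
    have hZa : ((Z / a : ℕ) : ℝ) ≤ w := by
      have h1 : ((Z / a : ℕ) : ℝ) ≤ (Z : ℝ) / a := Nat.cast_div_le
      have h2 : (Z : ℝ) / a ≤ w := by
        rw [div_le_iff₀ (by linarith)]
        calc (Z : ℝ) ≤ z := hZz
          _ = w * a := by rw [hz]; ring
      linarith
    obtain ⟨D, hD⟩ : ∃ D : Finset ℕ, D = ((Icc 1 (Z / a)).filter (fun e : ℕ => U < (e : ℝ))).filter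
      (fun e => Nat.Coprime a e) := ⟨_, rfl⟩
    have hcov : SB x y m K b ⊆ (Icc 1 Z).filter (fun n => a ∣ n) ∪
        D.biUnion (fun e => (SB x y m K b).filter (fun n => a * e ∣ n)) := by
      intro n hn
      obtain ⟨h1, h2, h3, h4⟩ := mem_SB.1 hn
      have han := hall n hn
      rw [mem_union]
      by_cases hnz : n ≤ Z
      · left
        rw [mem_filter, mem_Icc]
        exact ⟨⟨h2.1.le, hnz⟩, han⟩
      · right
        push Not at hnz
        have hzn : z ≤ n := by
          rw [hZ, Nat.floor_lt hz0.le] at hnz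
          exact hnz.le
        obtain ⟨e, he1, he2, he3⟩ := dense_mult h2 hK h3 han hza hzn
        rw [mem_biUnion]
        obtain ⟨f1, f2, f3, f4⟩ := dvd_facts h2 he1
        have hcop : Nat.Coprime a e := Nat.coprime_of_squarefree_mul f2
        refine ⟨e, ?_, ?_⟩
        · rw [hD, mem_filter, mem_filter, mem_Icc]
          refine ⟨⟨⟨?_, ?_⟩, ?_⟩, hcop⟩
          · exact Nat.pos_of_ne_zero (fun h0 => by rw [h0] at f1; omega)
          · rw [Nat.le_div_iff_mul_le (by omega), hZ, mul_comm]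
            exact Nat.le_floor he3
          · rw [hU]
            push_cast at he2
            rw [div_lt_iff₀ (by positivity)] at he2 ⊢
            calc z < a * e * (16 * K * a) := he2
              _ = _ := by ring
        · rw [mem_filter]
          exact ⟨hn, he1⟩
    have hcard1 : (((Icc 1 Z).filter (fun n => a ∣ n)).card : ℝ) ≤ w := by
      have h1 : ((Icc 1 Z).filter (fun n => a ∣ n)).card = Z / a := by
        have := Nat.Ioc_filter_dvd_card_eq_div Z a
        have h2 : Icc 1 Z = Ioc 0 Z := by ext; simp [Nat.succ_le_iff]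
        rw [h2]
        exact this
      rw [h1]
      exact hZa
    have hterm : ∀ e ∈ D, (((SB x y m K b).filter (fun n => a * e ∣ n)).card : ℝ) ≤
        (y * g / (m * a.totient)) * (1 / ((e : ℝ) * Nat.totient e)) + 1 := by
      intro e he
      rw [hD, mem_filter, mem_filter, mem_Icc] at he
      obtain ⟨⟨⟨he1, -⟩, -⟩, hcop⟩ := he
      have hφe : 1 ≤ e.totient := Nat.totient_pos.2 he1
      obtain ⟨L, hL1, hL2, hL3⟩ := cls_bound (x := x) (y := y) (K := K) (b := b) hm (a * e)
        (Nat.mul_pos ha1 he1)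
      rw [← ha, ← hg, Nat.totient_mul hcop] at hL2
      have heR : (1 : ℝ) ≤ e := by exact_mod_cast he1
      have hφeR : (1 : ℝ) ≤ e.totient := by exact_mod_cast hφe
      have hLR : (1 : ℝ) ≤ L := by exact_mod_cast hL1
      have h1 : ((y / L : ℕ) : ℝ) ≤ (y : ℝ) / L := Nat.cast_div_le
      have h2 : (((SB x y m K b).filter (fun n => a * e ∣ n)).card : ℝ) ≤ ((y / L : ℕ) : ℝ) + 1 := by
        exact_mod_cast hL3
      have h3 : (m : ℝ) * (a * e * (a.totient * e.totient)) ≤ (a * g) * L := by exact_mod_cast hL2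
      have h4 : (y : ℝ) / L ≤ (y * g / (m * a.totient)) * (1 / ((e : ℝ) * Nat.totient e)) := by
        rw [div_mul_div_comm, mul_one, div_le_div_iff₀ (by linarith) (by positivity)]
        have h5 : (a : ℝ) * ((m : ℝ) * a.totient * (e * e.totient)) ≤ a * (g * L) := by
          calc (a : ℝ) * ((m : ℝ) * a.totient * (e * e.totient)) =
              (m : ℝ) * (a * e * (a.totient * e.totient)) := by ring
            _ ≤ (a * g) * L := h3
            _ = _ := by ring
        have h6 := le_of_mul_le_mul_left h5 (by linarith)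
        calc (y : ℝ) * (m * a.totient * (e * e.totient)) ≤ y * (g * L) :=
              mul_le_mul_of_nonneg_left h6 (by linarith)
          _ = _ := by ring
      linarith
    have hDcard : (D.card : ℝ) ≤ w := by
      have h1 : D.card ≤ (Icc 1 (Z / a)).card := by
        rw [hD]
        exact (card_filter_le _ _).trans (card_filter_le _ _)
      rw [Nat.card_Icc, Nat.add_sub_cancel] at h1
      have h2 : (D.card : ℝ) ≤ ((Z / a : ℕ) : ℝ) := by exact_mod_cast h1
      linarith
    have hsum : ∑ e ∈ D, 1 / ((e : ℝ) * Nat.totient e) ≤ C / U := by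
      refine le_trans ?_ (htail U (Z / a) hU0)
      rw [hD]
      exact sum_le_sum_of_subset_of_nonneg (filter_subset _ _) (fun _ _ _ => by positivity)
    have hcard2 : ((D.biUnion (fun e => (SB x y m K b).filter (fun n => a * e ∣ n))).card : ℝ) ≤
        (y * g / (m * a.totient)) * (C / U) + w := by
      calc ((D.biUnion (fun e => (SB x y m K b).filter (fun n => a * e ∣ n))).card : ℝ) ≤
          ∑ e ∈ D, (((SB x y m K b).filter (fun n => a * e ∣ n)).card : ℝ) := by
            exact_mod_cast card_biUnion_le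
        _ ≤ ∑ e ∈ D, ((y * g / (m * a.totient)) * (1 / ((e : ℝ) * Nat.totient e)) + 1) :=
            sum_le_sum hterm
        _ = (y * g / (m * a.totient)) * ∑ e ∈ D, 1 / ((e : ℝ) * Nat.totient e) + D.card := by
            rw [sum_add_distrib, ← mul_sum, sum_const, nsmul_eq_mul, mul_one]
        _ ≤ _ := add_le_add (mul_le_mul_of_nonneg_left hsum (by positivity)) hDcard
    have hval : (y * g / (m * a.totient)) * (C / U) = 16 * C * w := by
      have h1 : (y : ℝ) * K * g * a = w * w * (m * Nat.totient a) := by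
        rw [hww]
        field_simp
      rw [hU, hz]
      field_simp
      linear_combination h1
    have h1 : ((SB x y m K b).card : ℝ) ≤ (((Icc 1 Z).filter (fun n => a ∣ n)).card : ℝ) +
        ((D.biUnion (fun e => (SB x y m K b).filter (fun n => a * e ∣ n))).card : ℝ) := by
      exact_mod_cast (card_le_card hcov).trans (card_union_le _ _)
    rw [hval] at hcard2
    linarith

end Pool.Agent.NH3.LT
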