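import Pool.Agent.NH3.LT.Dn

set_option autoImplicit false

/-!
# Dense divisors that are multiples of a given divisor; tails of `∑ 1 / (d φ(d))`
-/

namespace Pool.Agent.NH3.LT

open Finset Pool.Agent.H95R2.Leh

/-- the products of subsets of a set of positive integers whose members are bounded by `B` times the
product of the smaller ones are dense -/
theorem dense_sub (B : ℝ) (hB : 1 < B) (S : Finset ℕ) (hS0 : ∀ s ∈ S, 1 ≤ s)
    (hS : ∀ s ∈ S, (s : ℝ) ≤ B * ((∏ p ∈ S.filter (fun p => p < s), p : ℕ) : ℝ)) (z : ℝ)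
    (hz : 1 ≤ z) (hzS : z ≤ ((∏ p ∈ S, p : ℕ) : ℝ)) :
    ∃ T ⊆ S, z / B < ((∏ p ∈ T, p : ℕ) : ℝ) ∧ ((∏ p ∈ T, p : ℕ) : ℝ) ≤ z := by
  classical
  have hB0 : 0 < B := by linarith
  induction S using Finset.induction_on_max generalizing z with
  | empty =>
    refine ⟨∅, Finset.Subset.refl _, ?_⟩
    simp only [prod_empty, Nat.cast_one] at hzS ⊢
    refine ⟨?_, hz⟩
    rw [div_lt_one hB0]
    linarith
  | insert s S hmax ih =>
    have hsS : s ∉ S := fun h => lt_irrefl s (hmax s h)
    have hs1 : 1 ≤ s := hS0 s (mem_insert_self _ _)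
    have hsR : (1 : ℝ) ≤ s := by exact_mod_cast hs1
    have hf1 : (insert s S).filter (fun p => p < s) = S := by
      ext p
      rw [mem_filter, mem_insert]
      constructor
      · rintro ⟨h1 | h1, h2⟩
        · omega
        · exact h1
      · intro h
        exact ⟨Or.inr h, hmax p h⟩
    have hs := hS s (mem_insert_self _ _)
    rw [hf1] at hs
    have ih' := ih (fun q hq => hS0 q (mem_insert_of_mem hq)) (fun q hq => by
      have h1 := hS q (mem_insert_of_mem hq)
      have h2 : (insert s S).filter (fun p => p < q) = S.filter (fun p => p < q) := by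
        rw [filter_insert, if_neg]
        have := hmax q hq
        omega
      rwa [h2] at h1)
    rw [prod_insert hsS] at hzS
    push_cast at hzS
    set N : ℝ := ((∏ p ∈ S, p : ℕ) : ℝ) with hN
    have hN' : N = ∏ p ∈ S, (p : ℝ) := by rw [hN]; push_cast; rfl
    rw [← hN'] at hzS
    rcases le_or_gt z N with h1 | h1
    · obtain ⟨T, hT, h2, h3⟩ := ih' z hz h1
      exact ⟨T, hT.trans (subset_insert _ _), h2, h3⟩
    · rcases lt_or_ge (z / B) N with h2 | h2
      · exact ⟨S, subset_insert _ _, h2, h1.le⟩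
      · have h3 : B * N ≤ z := by
          rw [le_div_iff₀ hB0] at h2
          linarith
        have hs0 : (0 : ℝ) < s := by linarith
        have h4 : 1 ≤ z / s := by
          rw [le_div_iff₀ hs0, one_mul]
          linarith
        have h5 : z / s ≤ N := by
          rw [div_le_iff₀ hs0]
          linarith
        obtain ⟨T, hT, h6, h7⟩ := ih' (z / s) h4 h5
        refine ⟨insert s T, insert_subset_insert s hT, ?_, ?_⟩
        · rw [prod_insert (fun h => hsS (hT h))]
          push_cast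
          push_cast at h6
          calc z / B = s * (z / s / B) := by field_simp
            _ < _ := mul_lt_mul_of_pos_left h6 hs0
        · rw [prod_insert (fun h => hsS (hT h))]
          push_cast
          push_cast at h7
          calc (s : ℝ) * ∏ p ∈ T, (p : ℝ) ≤ s * (z / s) := mul_le_mul_of_nonneg_left h7 hs0.le
            _ = z := by field_simp

/-- the next prime factor of a Lehmer number -/
theorem next_le {n K : ℕ} (h : Leh n) (hK : 1 ≤ K) (hω : n.primeFactors.card ≤ K) {s : ℕ}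
    (hs : s.Prime) (hsn : s ∣ n) : (s : ℝ) ≤ 16 * K * (seg n s : ℕ) := by
  have hKR : (1 : ℝ) ≤ K := by exact_mod_cast hK
  obtain ⟨k, hk2, hk, -⟩ := leh_k h
  have hF := fam_leh n k K (by omega) hKR
  have hst : StL n k K (seg n s) s := ⟨n, h, by have := h.1; omega, le_rfl, hk,
    by exact_mod_cast hω, Or.inl ⟨hs, hsn, rfl⟩⟩
  have hseg : 1 ≤ seg n s := Nat.pos_of_dvd_of_pos (seg_dvd n s) (by have := h.1; omega)
  have hsegR : (1 : ℝ) ≤ (seg n s : ℕ) := by exact_mod_cast hseg
  rcases lt_or_ge (s : ℝ) (16 * K) with h1 | h1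
  · nlinarith
  · have h2 := hF.small _ _ hst h1
    have h3 : 1 ≤ |(k : ℝ) * Nat.totient (seg n s) - (seg n s : ℕ)| := by
      have h4 := hF.ne _ _ hst
      have h5 : (1 : ℤ) ≤ |(k : ℤ) * Nat.totient (seg n s) - (seg n s : ℕ)| := by
        apply Int.one_le_abs
        intro h0
        apply h4
        have : (k : ℤ) * Nat.totient (seg n s) = (seg n s : ℕ) := by linarith
        exact_mod_cast this
      exact_mod_cast h5
    have h4 : (0 : ℝ) ≤ s := Nat.cast_nonneg s
    nlinarith

/-- a Lehmer number divisible by `a` has divisors `d` divisible by `a` in `(z/(16Ka), z]` -/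
theorem dense_mult {n K a : ℕ} (h : Leh n) (hK : 1 ≤ K) (hω : n.primeFactors.card ≤ K) (ha : a ∣ n)
    {z : ℝ} (hz : a ≤ z) (hzn : z ≤ n) :
    ∃ e : ℕ, a * e ∣ n ∧ z / (16 * K * a) < ((a * e : ℕ) : ℝ) ∧ ((a * e : ℕ) : ℝ) ≤ z := by
  classical
  have hKR : (1 : ℝ) ≤ K := by exact_mod_cast hK
  have hn0 : n ≠ 0 := by have := h.1; omega
  have ha1 : 1 ≤ a := Nat.pos_of_dvd_of_pos ha (by omega)
  have haR : (1 : ℝ) ≤ a := by exact_mod_cast ha1
  have ha0 : (0 : ℝ) < a := by linarith
  have hsq := (leh_basic h).1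
  obtain ⟨b, hb⟩ := ha
  have hb0 : b ≠ 0 := by
    intro h0
    rw [h0, mul_zero] at hb
    exact hn0 hb
  have hcop : Nat.Coprime a b := by
    rw [hb] at hsq
    exact Nat.coprime_of_squarefree_mul hsq
  have hbsq : Squarefree b := hsq.squarefree_of_dvd (Dvd.intro_left a hb.symm)
  have hprod : ∏ p ∈ b.primeFactors, p = b := Nat.prod_primeFactors_of_squarefree hbsq
  have hB : 1 < 16 * (K : ℝ) * a := by nlinarith
  have hdense : ∀ s ∈ b.primeFactors, (s : ℝ) ≤
      (16 * K * a) * ((∏ p ∈ b.primeFactors.filter (fun p => p < s), p : ℕ) : ℝ) := by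
    intro s hs
    have hsp := Nat.prime_of_mem_primeFactors hs
    have hsb := Nat.dvd_of_mem_primeFactors hs
    have h1 := next_le h hK hω hsp (hsb.trans (Dvd.intro_left a hb.symm))
    refine h1.trans ?_
    rw [mul_assoc (16 * (K : ℝ))]
    apply mul_le_mul_of_nonneg_left _ (by positivity)
    have h2 : seg n s ≤ a * ∏ p ∈ b.primeFactors.filter (fun p => p < s), p := by
      unfold seg
      have h3 : n.primeFactors = a.primeFactors ∪ b.primeFactors := by
        rw [hb, hcop.primeFactors_mul]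
      rw [h3, filter_union, prod_union]
      · apply Nat.mul_le_mul_right
        calc ∏ p ∈ a.primeFactors.filter (fun p => p < s), p ≤ ∏ p ∈ a.primeFactors, p := by
              apply Finset.prod_le_prod_of_subset_of_one_le' (filter_subset _ _)
              intro p hp _
              exact (Nat.prime_of_mem_primeFactors hp).one_le
          _ ≤ a := Nat.le_of_dvd ha1 (Nat.prod_primeFactors_dvd a)
      · exact (hcop.disjoint_primeFactors).mono (filter_subset _ _) (filter_subset _ _)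
    have h3 : ((seg n s : ℕ) : ℝ) ≤
        ((a * ∏ p ∈ b.primeFactors.filter (fun p => p < s), p : ℕ) : ℝ) := by exact_mod_cast h2
    rwa [Nat.cast_mul] at h3
  have hz1 : 1 ≤ z / a := by rw [le_div_iff₀ ha0]; linarith
  have hz2 : z / a ≤ ((∏ p ∈ b.primeFactors, p : ℕ) : ℝ) := by
    rw [hprod, div_le_iff₀ ha0]
    have : (n : ℝ) = a * b := by rw [hb]; push_cast; ring
    linarith
  obtain ⟨T, hT, h1, h2⟩ := dense_sub _ hB b.primeFactors
    (fun s hs => (Nat.prime_of_mem_primeFactors hs).one_le) hdense (z / a) hz1 hz2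
  refine ⟨∏ p ∈ T, p, ?_, ?_, ?_⟩
  · rw [hb]
    apply Nat.mul_dvd_mul_left
    calc ∏ p ∈ T, p ∣ ∏ p ∈ b.primeFactors, p := Finset.prod_dvd_prod_of_subset _ _ _ hT
      _ = b := hprod
  · rw [Nat.cast_mul]
    calc z / (16 * K * a) = a * (z / a / (16 * K * a)) := by field_simp
      _ < _ := mul_lt_mul_of_pos_left h1 ha0
  · rw [Nat.cast_mul]
    calc (a : ℝ) * ((∏ p ∈ T, p : ℕ) : ℝ) ≤ a * (z / a) := mul_le_mul_of_nonneg_left h2 ha0.le
      _ = z := by field_simp

/-- the tail of `∑ 1 / (e φ(e))` -/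
theorem tail_real : ∃ C : ℝ, 1 ≤ C ∧ ∀ (U : ℝ) (N : ℕ), 0 < U →
    ∑ e ∈ (Icc 1 N).filter (fun e : ℕ => U < (e : ℝ)), 1 / ((e : ℝ) * Nat.totient e) ≤ C / U := by
  obtain ⟨C, hC, htail⟩ := Pool.Agent.Y928.LS.tail_sum
  refine ⟨8 * C + 1, by linarith, ?_⟩
  intro U N hU
  obtain ⟨u, hu⟩ : ∃ u : ℕ, u = ⌊U⌋₊ := ⟨_, rfl⟩
  have hu1 : U < u + 1 := by rw [hu]; exact Nat.lt_floor_add_one _
  have hsub : (Icc 1 N).filter (fun e : ℕ => U < (e : ℝ)) ⊆ Ioc u N := by
    intro d hd
    rw [mem_filter, mem_Icc] at hd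
    rw [mem_Ioc]
    refine ⟨?_, hd.1.2⟩
    rw [hu, Nat.floor_lt hU.le]
    exact hd.2
  have h1 : ∑ d ∈ (Icc 1 N).filter (fun e : ℕ => U < (e : ℝ)), 1 / ((d : ℝ) * Nat.totient d) ≤
      ∑ d ∈ Ioc u N, 1 / ((d : ℝ) * Nat.totient d) :=
    Finset.sum_le_sum_of_subset_of_nonneg hsub (fun _ _ _ => by positivity)
  refine h1.trans ?_
  rcases Nat.eq_zero_or_pos u with h0 | hpos
  · rw [h0] at hu1 ⊢
    have h2 : ∑ d ∈ Ioc (0 : ℕ) N, 1 / ((d : ℝ) * Nat.totient d) ≤ 1 + 4 * C := by
      rcases Nat.eq_zero_or_pos N with hZ0 | hZpos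
      · rw [hZ0]
        simp only [Ioc_self, sum_empty]
        linarith
      · rw [← Finset.sum_Ioc_consecutive _ (Nat.zero_le 1) hZpos]
        have h3 := htail N 1 N le_rfl (by omega)
        simp only [Nat.cast_one, div_one] at h3
        have h4 : ∑ d ∈ Ioc (0 : ℕ) 1, 1 / ((d : ℝ) * Nat.totient d) = 1 := by
          rw [show Ioc (0 : ℕ) 1 = {1} by rfl, sum_singleton]
          simp
        rw [h4]
        linarith
    refine h2.trans ?_
    rw [le_div_iff₀ hU]
    push_cast at hu1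
    nlinarith
  · have h2 := htail N u N hpos (by omega)
    refine h2.trans ?_
    have huR : (1 : ℝ) ≤ u := by exact_mod_cast hpos
    rw [div_le_div_iff₀ (by linarith) hU]
    nlinarith

end Pool.Agent.NH3.LT
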