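import Pool.Agent.Y928.LS.Short
import Pool.Agent.Helper112.Arith

set_option autoImplicit false

/-!
# Divisors of Lehmer numbers of given size; powers of constants to the number of prime factors
-/

namespace Pool.Agent.NH3.LT

open Finset Pool.Agent.H95R2.Leh

/-- a Lehmer number has divisors in all intervals `(z/(16K), z]` -/
theorem exists_dense {n K : ℕ} (h : Leh n) (hK : 1 ≤ K) (hω : n.primeFactors.card ≤ K) {z : ℝ}
    (hz : 1 ≤ z) (hzn : z ≤ n) :
    ∃ d : ℕ, d ∣ n ∧ z / (16 * K) < (d : ℝ) ∧ (d : ℝ) ≤ z := by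
  have hKR : (1 : ℝ) ≤ K := by exact_mod_cast hK
  obtain ⟨k, hk2, hk, -⟩ := leh_k h
  have hF := fam_leh n k K (by omega) hKR
  have hst : StL n k K n (2 * n) := ⟨n, h, by have := h.1; omega, le_rfl, hk,
    by exact_mod_cast hω, Or.inr ⟨rfl, rfl⟩⟩
  exact dense hF hst hz hzn

theorem dvd_facts {n d : ℕ} (h : Leh n) (hd : d ∣ n) : 1 ≤ d ∧ Squarefree d ∧
    Nat.Coprime d d.totient ∧ d.totient ∣ n - 1 := by
  have hcop : Nat.Coprime d (Nat.totient d) :=
    Nat.Coprime.coprime_dvd_left hd (Nat.Coprime.coprime_dvd_right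
      (Nat.totient_dvd_of_dvd hd) (leh_basic h).2.2)
  exact ⟨Nat.pos_of_dvd_of_pos hd (by have := h.1; omega),
    (leh_basic h).1.squarefree_of_dvd hd, hcop, (Nat.totient_dvd_of_dvd hd).trans h.2.2⟩

theorem two_pow_le {n : ℕ} (hn : n ≠ 0) : 2 ^ n.primeFactors.card ≤ n.divisors.card := by
  rw [Nat.card_divisors hn, ← Finset.prod_const]
  refine Finset.prod_le_prod' fun p hp => ?_
  have h1 : 0 < n.factorization p := by
    have := Nat.mem_primeFactors.1 hp
    exact this.1.factorization_pos_of_dvd hn this.2.1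
  omega

/-- powers of a constant to the number of prime factors are small -/
theorem const_pow_le (j : ℕ) (ε : ℝ) (hε : 0 < ε) : ∃ C : ℝ, 1 ≤ C ∧ ∀ n : ℕ, 1 ≤ n →
    (j : ℝ) ^ n.primeFactors.card ≤ C * (n : ℝ) ^ ε := by
  obtain ⟨C, hC, h⟩ := Pool.Agent.Helper112.divisor_bound (ε / (j + 1)) (by positivity)
  have hC0 : 1 ≤ (max C 1) ^ j := one_le_pow₀ (le_max_right _ _)
  refine ⟨(max C 1) ^ j, hC0, ?_⟩
  intro n hn
  have hn0 : (0 : ℝ) < n := by exact_mod_cast hn
  have hn1 : (1 : ℝ) ≤ n := by exact_mod_cast hn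
  have h1 : (j : ℝ) ^ n.primeFactors.card ≤ ((n.divisors.card : ℝ)) ^ j := by
    have h2 : j ^ n.primeFactors.card ≤ n.divisors.card ^ j := by
      calc j ^ n.primeFactors.card ≤ (2 ^ j) ^ n.primeFactors.card :=
            Nat.pow_le_pow_left (Nat.lt_two_pow_self).le _
        _ = (2 ^ n.primeFactors.card) ^ j := by rw [← pow_mul, ← pow_mul, mul_comm]
        _ ≤ n.divisors.card ^ j := Nat.pow_le_pow_left (two_pow_le (by omega)) _
    exact_mod_cast h2
  refine h1.trans ?_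
  have h3 := h n hn
  have h4 : (n.divisors.card : ℝ) ≤ max C 1 * (n : ℝ) ^ (ε / (j + 1)) :=
    h3.trans (mul_le_mul_of_nonneg_right (le_max_left _ _) (by positivity))
  calc ((n.divisors.card : ℝ)) ^ j ≤ (max C 1 * (n : ℝ) ^ (ε / (j + 1))) ^ j :=
        pow_le_pow_left₀ (Nat.cast_nonneg _) h4 j
    _ = (max C 1) ^ j * (n : ℝ) ^ (ε / (j + 1) * j) := by
        rw [mul_pow, ← Real.rpow_natCast ((n : ℝ) ^ (ε / (j + 1))) j, ← Real.rpow_mul hn0.le]
    _ ≤ (max C 1) ^ j * (n : ℝ) ^ ε := by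
        apply mul_le_mul_of_nonneg_left _ (by linarith)
        apply Real.rpow_le_rpow_of_exponent_le hn1
        rw [div_mul_eq_mul_div, div_le_iff₀ (by positivity)]
        nlinarith

end Pool.Agent.NH3.LT
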