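import Pool.Agent.NH3.LT.Sv
import Pool.Agent.H95R2.Leh.FamLeh

set_option autoImplicit false

/-!
# The quotient `n / φ(n)` for `n` coprime to `φ(n)`
-/

namespace Pool.Agent.NH3.LT

open Finset

/-- the primes of `Q` in `(2^(2^j), 2^(2^(j+1))]` -/
def Blk (Q : Finset ℕ) (j : ℕ) : Finset ℕ := Q.filter (fun p => 2 ^ 2 ^ j < p ∧ p ≤ 2 ^ 2 ^ (j + 1))

theorem sum_biUnion_le_sum {α : Type*} (s : Finset α) (t : α → Finset ℕ) (f : ℕ → ℝ)
    (hf : ∀ a, 0 ≤ f a) : ∑ x ∈ s.biUnion t, f x ≤ ∑ i ∈ s, ∑ x ∈ t i, f x := by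
  classical
  induction s using Finset.induction_on with
  | empty => simp
  | insert a s ha ih =>
    rw [biUnion_insert, sum_insert ha]
    have h1 := sum_union_inter (s₁ := t a) (s₂ := s.biUnion t) (f := f)
    have h2 : 0 ≤ ∑ x ∈ t a ∩ s.biUnion t, f x := sum_nonneg fun x _ => hf x
    linarith

theorem blk_sum : ∃ (C : ℝ) (h : ℕ), 1 ≤ C ∧ ∀ Q : Finset ℕ, Free Q → ∀ j : ℕ, h ≤ j →
    ∑ p ∈ Blk Q j, 1 / (p : ℝ) ≤ C / PiQ Q (2 ^ 2 ^ (j - h)) := by
  obtain ⟨C, B, hC, hB, hcount⟩ := sieve_count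
  obtain ⟨h, hh⟩ : ∃ h : ℕ, B ≤ 2 ^ h := ⟨B, Nat.lt_two_pow_self.le⟩
  refine ⟨2 * C, h, by linarith, ?_⟩
  intro Q hQ j hj
  have hBj : B ≤ 2 ^ j := hh.trans (Nat.pow_le_pow_right (by norm_num) hj)
  have hPi := PiQ_ge_one hQ (2 ^ 2 ^ (j - h))
  have hcov : Blk Q j ⊆ (Ioc (2 ^ j) (2 ^ (j + 1))).biUnion
      (fun i => Q.filter (fun p => 2 ^ (i - 1) < p ∧ p ≤ 2 ^ i)) := by
    intro p hp
    unfold Blk at hp
    rw [mem_filter] at hp
    obtain ⟨hpQ, h1, h2⟩ := hp
    have hp1 : 1 < p := (hQ.pr p hpQ).1.one_lt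
    rw [mem_biUnion]
    refine ⟨Nat.clog 2 p, ?_, ?_⟩
    · rw [mem_Ioc]
      constructor
      · exact (Nat.lt_clog_iff_pow_lt (by norm_num)).2 h1
      · exact Nat.clog_le_of_le_pow h2
    · rw [mem_filter]
      refine ⟨hpQ, ?_, Nat.le_pow_clog (by norm_num) p⟩
      exact Nat.pow_pred_clog_lt_self (by norm_num) hp1
  calc ∑ p ∈ Blk Q j, 1 / (p : ℝ) ≤
      ∑ p ∈ (Ioc (2 ^ j) (2 ^ (j + 1))).biUnion
        (fun i => Q.filter (fun p => 2 ^ (i - 1) < p ∧ p ≤ 2 ^ i)), 1 / (p : ℝ) :=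
        sum_le_sum_of_subset_of_nonneg hcov (fun _ _ _ => by positivity)
    _ ≤ ∑ i ∈ Ioc (2 ^ j) (2 ^ (j + 1)),
        ∑ p ∈ Q.filter (fun p => 2 ^ (i - 1) < p ∧ p ≤ 2 ^ i), 1 / (p : ℝ) :=
        sum_biUnion_le_sum _ _ _ (fun _ => by positivity)
    _ ≤ ∑ i ∈ Ioc (2 ^ j) (2 ^ (j + 1)), 2 * C / (2 ^ j * PiQ Q (2 ^ 2 ^ (j - h))) := by
        apply sum_le_sum
        intro i hi
        rw [mem_Ioc] at hi
        have hi0 : 0 < i := by omega
        have h1 := hcount Q hQ i (by omega)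
        have hiR : (2 : ℝ) ^ j ≤ i := by exact_mod_cast hi.1.le
        have h2 : PiQ Q (2 ^ 2 ^ (j - h)) ≤ PiQ Q (2 ^ (i / B)) := by
          apply PiQ_mono hQ
          apply Nat.pow_le_pow_right (by norm_num)
          calc 2 ^ (j - h) = 2 ^ j / 2 ^ h := (Nat.pow_div hj (by norm_num)).symm
            _ ≤ 2 ^ j / B := Nat.div_le_div_left hh hB
            _ ≤ i / B := Nat.div_le_div_right hi.1.le
        have h3 : ∑ p ∈ Q.filter (fun p => 2 ^ (i - 1) < p ∧ p ≤ 2 ^ i), 1 / (p : ℝ) ≤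
            ∑ p ∈ Q.filter (fun p => 2 ^ (i - 1) < p ∧ p ≤ 2 ^ i), 1 / (2 : ℝ) ^ (i - 1) := by
          apply sum_le_sum
          intro p hp
          rw [mem_filter] at hp
          have : (2 : ℝ) ^ (i - 1) ≤ p := by exact_mod_cast hp.2.1.le
          gcongr
        rw [sum_const, nsmul_eq_mul] at h3
        refine h3.trans ?_
        have e1 : (2 : ℝ) ^ i = 2 * 2 ^ (i - 1) := by
          rw [← pow_succ']
          congr 1
          omega
        rw [e1] at h1
        calc ((Q.filter (fun p => 2 ^ (i - 1) < p ∧ p ≤ 2 ^ i)).card : ℝ) * (1 / 2 ^ (i - 1)) ≤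
            C * (2 * 2 ^ (i - 1)) / (i * PiQ Q (2 ^ (i / B))) * (1 / 2 ^ (i - 1)) := by
              apply mul_le_mul_of_nonneg_right h1 (by positivity)
          _ = 2 * C / (i * PiQ Q (2 ^ (i / B))) := by
              have hne : (2 : ℝ) ^ (i - 1) ≠ 0 := by positivity
              field_simp
          _ ≤ 2 * C / (2 ^ j * PiQ Q (2 ^ 2 ^ (j - h))) := by
              apply div_le_div_of_nonneg_left (by linarith) (by positivity)
              exact mul_le_mul hiR h2 (by linarith) (by positivity)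
    _ = 2 * C / PiQ Q (2 ^ 2 ^ (j - h)) := by
        rw [sum_const, nsmul_eq_mul, Nat.card_Ioc]
        have : 2 ^ (j + 1) - 2 ^ j = 2 ^ j := by rw [pow_succ]; omega
        rw [this]
        push_cast
        field_simp

theorem fac_le_exp {p : ℕ} (hp : 2 ≤ p) : (1 - 1 / (p : ℝ))⁻¹ ≤ Real.exp (1 / ((p : ℝ) - 1)) := by
  have h1 : (2 : ℝ) ≤ p := by exact_mod_cast hp
  have h2 : (p : ℝ) - 1 ≠ 0 := by linarith
  have h3 : (p : ℝ) ≠ 0 := by linarith
  have e1 : (1 - 1 / (p : ℝ))⁻¹ = 1 / ((p : ℝ) - 1) + 1 := by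
    field_simp
    ring
  rw [e1]
  exact Real.add_one_le_exp _

theorem PiQ_step {Q : Finset ℕ} (hQ : Free Q) (j : ℕ) :
    PiQ Q (2 ^ 2 ^ (j + 1)) ≤ PiQ Q (2 ^ 2 ^ j) * Real.exp (2 * ∑ p ∈ Blk Q j, 1 / (p : ℝ)) := by
  have hle : 2 ^ 2 ^ j ≤ 2 ^ 2 ^ (j + 1) := by
    apply Nat.pow_le_pow_right (by norm_num)
    apply Nat.pow_le_pow_right (by norm_num)
    omega
  have e1 : Q.filter (fun p => p ≤ 2 ^ 2 ^ (j + 1)) =
      Q.filter (fun p => p ≤ 2 ^ 2 ^ j) ∪ Blk Q j := by
    ext p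
    unfold Blk
    rw [mem_union, mem_filter, mem_filter, mem_filter]
    constructor
    · rintro ⟨h1, h2⟩
      by_cases h3 : p ≤ 2 ^ 2 ^ j
      · exact Or.inl ⟨h1, h3⟩
      · exact Or.inr ⟨h1, by omega, h2⟩
    · rintro (⟨h1, h2⟩ | ⟨h1, h2, h3⟩)
      · exact ⟨h1, h2.trans hle⟩
      · exact ⟨h1, h3⟩
  have hdis : Disjoint (Q.filter (fun p => p ≤ 2 ^ 2 ^ j)) (Blk Q j) := by
    rw [Finset.disjoint_left]
    intro p h1 h2
    unfold Blk at h2
    rw [mem_filter] at h1 h2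
    omega
  have hPi := PiQ_ge_one hQ (2 ^ 2 ^ j)
  unfold PiQ at hPi ⊢
  rw [e1, prod_union hdis]
  apply mul_le_mul_of_nonneg_left _ (by linarith)
  rw [mul_sum, Real.exp_sum]
  apply prod_le_prod
  · intro p hp
    unfold Blk at hp
    rw [mem_filter] at hp
    have := fac_ge (hQ.pr p hp.1).1.two_le
    linarith
  · intro p hp
    unfold Blk at hp
    rw [mem_filter] at hp
    have h2 := (hQ.pr p hp.1).1.two_le
    refine (fac_le_exp h2).trans ?_
    apply Real.exp_le_exp.2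
    have h2R : (2 : ℝ) ≤ p := by exact_mod_cast h2
    rw [mul_one_div, div_le_div_iff₀ (by linarith) (by linarith)]
    linarith

theorem PiQ_bound : ∃ D : ℝ, 1 ≤ D ∧ ∀ Q : Finset ℕ, Free Q → ∀ j : ℕ,
    PiQ Q (2 ^ 2 ^ j) ≤ D * (j + 1) := by
  obtain ⟨C, h, hC, hsum⟩ := blk_sum
  set M : ℝ := C * Real.exp (2 * h * C) with hM
  have hM1 : 1 ≤ M := by
    rw [hM]
    have : 1 ≤ Real.exp (2 * h * C) := Real.one_le_exp (by positivity)
    nlinarith
  set D : ℝ := (2 : ℝ) ^ 2 ^ (2 * h) + 2 * M * Real.exp (2 * C) + 4 * M with hD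
  have hexp : 0 < Real.exp (2 * C) := Real.exp_pos _
  have hD0 : (1 : ℝ) ≤ (2 : ℝ) ^ 2 ^ (2 * h) := one_le_pow₀ (by norm_num)
  have hME : 0 ≤ 2 * M * Real.exp (2 * C) := by positivity
  refine ⟨D, by linarith, ?_⟩
  intro Q hQ
  set P : ℕ → ℝ := fun j => PiQ Q (2 ^ 2 ^ j) with hP
  have hP1 : ∀ j, 1 ≤ P j := fun j => PiQ_ge_one hQ _
  have hstep : ∀ j, P (j + 1) ≤ P j * Real.exp (2 * ∑ p ∈ Blk Q j, 1 / (p : ℝ)) :=
    fun j => PiQ_step hQ j
  have hs1 : ∀ j, h ≤ j → ∑ p ∈ Blk Q j, 1 / (p : ℝ) ≤ C / P (j - h) := fun j hj => hsum Q hQ j hj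
  have hsC : ∀ j, h ≤ j → ∑ p ∈ Blk Q j, 1 / (p : ℝ) ≤ C := by
    intro j hj
    refine (hs1 j hj).trans ?_
    exact div_le_self (by linarith) (hP1 _)
  have hmulti : ∀ i j, h ≤ j → P (j + i) ≤ P j * Real.exp (2 * i * C) := by
    intro i
    induction i with
    | zero => intro j _; simp
    | succ i ih =>
      intro j hj
      have h1 := ih j hj
      have h2 := hstep (j + i)
      have h3 := hsC (j + i) (by omega)
      rw [← add_assoc]
      calc P (j + i + 1) ≤ P (j + i) * Real.exp (2 * ∑ p ∈ Blk Q (j + i), 1 / (p : ℝ)) := h2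
        _ ≤ (P j * Real.exp (2 * i * C)) * Real.exp (2 * C) := by
            apply mul_le_mul h1 (Real.exp_le_exp.2 (by linarith)) (Real.exp_pos _).le
            have := hP1 j
            positivity
        _ = P j * Real.exp (2 * ((i + 1 : ℕ) : ℝ) * C) := by
            rw [mul_assoc, ← Real.exp_add]
            congr 2
            push_cast
            ring
  have hs2 : ∀ j, 2 * h ≤ j → ∑ p ∈ Blk Q j, 1 / (p : ℝ) ≤ M / P j := by
    intro j hj
    refine (hs1 j (by omega)).trans ?_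
    have h1 := hmulti h (j - h) (by omega)
    rw [Nat.sub_add_cancel (by omega)] at h1
    have hp1 := hP1 (j - h)
    have hp2 := hP1 j
    rw [div_le_div_iff₀ (by linarith) (by linarith), hM]
    calc C * P j ≤ C * (P (j - h) * Real.exp (2 * h * C)) := by
          apply mul_le_mul_of_nonneg_left h1 (by linarith)
      _ = _ := by ring
  have hbase : ∀ j, j ≤ 2 * h → P j ≤ D * (j + 1) := by
    intro j hj
    have h1 : P j ≤ (2 : ℝ) ^ 2 ^ (2 * h) := by
      calc P j ≤ ((2 ^ 2 ^ j : ℕ) : ℝ) := PiQ_le hQ _ Nat.one_le_two_pow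
        _ ≤ (2 : ℝ) ^ 2 ^ (2 * h) := by
            push_cast
            apply pow_le_pow_right₀ (by norm_num)
            apply Nat.pow_le_pow_right (by norm_num) hj
    have h2 : (0 : ℝ) ≤ j := Nat.cast_nonneg j
    nlinarith
  have hmain : ∀ i, P (2 * h + i) ≤ D * ((2 * h + i : ℕ) + 1) := by
    intro i
    induction i with
    | zero => exact hbase (2 * h) le_rfl
    | succ i ih =>
      have h1 := hstep (2 * h + i)
      have h2 := hs2 (2 * h + i) (by omega)
      have h3 := hsC (2 * h + i) (by omega)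
      have hp := hP1 (2 * h + i)
      rw [← add_assoc]
      rcases le_or_gt (2 * M) (P (2 * h + i)) with h4 | h4
      · have h5 : Real.exp (2 * ∑ p ∈ Blk Q (2 * h + i), 1 / (p : ℝ)) ≤
            1 + 4 * M / P (2 * h + i) := by
          have h6 : 2 * ∑ p ∈ Blk Q (2 * h + i), 1 / (p : ℝ) ≤ 2 * M / P (2 * h + i) := by
            rw [mul_div_assoc]
            linarith
          have h7 : 2 * M / P (2 * h + i) ≤ 1 := by
            rw [div_le_one (by linarith)]
            exact h4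
          have h8 : 0 ≤ 2 * M / P (2 * h + i) := by positivity
          have h9 : Real.exp (2 * M / P (2 * h + i)) ≤ 1 + 2 * (2 * M / P (2 * h + i)) := by
            set t := 2 * M / P (2 * h + i) with ht
            have hc := convexOn_exp.2 (Set.mem_univ (1 : ℝ)) (Set.mem_univ (0 : ℝ)) h8
              (by linarith : 0 ≤ 1 - t) (by ring)
            simp only [smul_eq_mul, mul_zero, add_zero, Real.exp_zero, mul_one] at hc
            have := Real.exp_one_lt_d9
            nlinarith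
          calc Real.exp (2 * ∑ p ∈ Blk Q (2 * h + i), 1 / (p : ℝ)) ≤
              Real.exp (2 * M / P (2 * h + i)) := Real.exp_le_exp.2 h6
            _ ≤ 1 + 2 * (2 * M / P (2 * h + i)) := h9
            _ = _ := by ring
        have h6 : P (2 * h + i) * (1 + 4 * M / P (2 * h + i)) = P (2 * h + i) + 4 * M := by
          field_simp
        have h7 := h1.trans (mul_le_mul_of_nonneg_left h5 (by linarith))
        rw [h6] at h7
        push_cast at ih ⊢
        nlinarith
      · have h5 : P (2 * h + i + 1) ≤ 2 * M * Real.exp (2 * C) := by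
          refine h1.trans ?_
          exact mul_le_mul h4.le (Real.exp_le_exp.2 (by linarith)) (Real.exp_pos _).le (by linarith)
        have h6 : (0 : ℝ) ≤ ((2 * h + i + 1 : ℕ) : ℝ) := Nat.cast_nonneg _
        nlinarith
  intro j
  rcases le_total j (2 * h) with hj | hj
  · exact hbase j hj
  · have := hmain (j - 2 * h)
    rw [Nat.add_sub_cancel' hj] at this
    exact this

/-- the quotient `n / φ(n)` -/
theorem ratio_eq {n : ℕ} (hn : 1 ≤ n) :
    (n : ℝ) / n.totient = ∏ p ∈ n.primeFactors, (1 - 1 / (p : ℝ))⁻¹ := by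
  have h := Pool.Agent.H95R2.Leh.ApS.totient_div hn
  have h1 : ∏ p ∈ n.primeFactors, (1 - 1 / (p : ℝ))⁻¹ =
      (∏ p ∈ n.primeFactors, (1 - (p : ℝ)⁻¹))⁻¹ := by
    rw [← prod_inv_distrib]
    apply prod_congr rfl
    intro p _
    rw [one_div]
  rw [h1, h, inv_div]

/-- the bound for numbers coprime to `φ(n)` -/
theorem ratio_bound : ∃ D : ℝ, 1 ≤ D ∧ ∀ n : ℕ, 1 ≤ n → Free n.primeFactors → ∀ j : ℕ,
    n.primeFactors.card ≤ 2 ^ 2 ^ j → (n : ℝ) / n.totient ≤ D * (j + 1) := by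
  obtain ⟨D, hD, hb⟩ := PiQ_bound
  refine ⟨Real.exp 1 * D, ?_, ?_⟩
  · have := Real.add_one_le_exp (1 : ℝ)
    nlinarith
  intro n hn hQ j hj
  rw [ratio_eq hn]
  have h1 := hb n.primeFactors hQ j
  rw [← prod_filter_mul_prod_filter_not n.primeFactors (fun p => p ≤ 2 ^ 2 ^ j)]
  have h2 : ∏ p ∈ n.primeFactors.filter (fun p => ¬ p ≤ 2 ^ 2 ^ j), (1 - 1 / (p : ℝ))⁻¹ ≤
      Real.exp 1 := by
    rcases Nat.eq_zero_or_pos n.primeFactors.card with h0 | h0
    · rw [Finset.card_eq_zero] at h0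
      rw [h0]
      simp only [filter_empty, prod_empty]
      exact Real.one_le_exp (by norm_num)
    have hrR : (0 : ℝ) < n.primeFactors.card := by exact_mod_cast h0
    calc ∏ p ∈ n.primeFactors.filter (fun p => ¬ p ≤ 2 ^ 2 ^ j), (1 - 1 / (p : ℝ))⁻¹ ≤
        ∏ p ∈ n.primeFactors.filter (fun p => ¬ p ≤ 2 ^ 2 ^ j),
          Real.exp (1 / (n.primeFactors.card : ℝ)) := by
          apply prod_le_prod
          · intro p hp
            rw [mem_filter] at hp
            have := fac_ge (hQ.pr p hp.1).1.two_le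
            linarith
          · intro p hp
            rw [mem_filter, not_le] at hp
            have h2 := (hQ.pr p hp.1).1.two_le
            refine (fac_le_exp h2).trans ?_
            apply Real.exp_le_exp.2
            have h3 : (n.primeFactors.card : ℝ) + 1 ≤ p := by
              have : n.primeFactors.card + 1 ≤ p := by omega
              exact_mod_cast this
            apply div_le_div_of_nonneg_left (by norm_num) hrR
            linarith
      _ = Real.exp ((n.primeFactors.filter (fun p => ¬ p ≤ 2 ^ 2 ^ j)).card *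
          (1 / (n.primeFactors.card : ℝ))) := by
          rw [prod_const, ← Real.exp_nat_mul]
      _ ≤ Real.exp 1 := by
          apply Real.exp_le_exp.2
          rw [mul_one_div, div_le_one hrR]
          exact_mod_cast card_filter_le _ _
  calc _ ≤ (D * (j + 1)) * Real.exp 1 := by
        apply mul_le_mul h1 h2 _ (by positivity)
        apply prod_nonneg
        intro p hp
        rw [mem_filter] at hp
        have := fac_ge (hQ.pr p hp.1).1.two_le
        linarith
    _ = _ := by ring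

end Pool.Agent.NH3.LT
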