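import Pool.Agent.NH3.LT.IX
import Pool.Agent.H95R2.Leh.Congr

set_option autoImplicit false

/-!
# The quotient of a Lehmer number
-/

namespace Pool.Agent.NH3.LT

open Finset Pool.Agent.H95R2.Leh

theorem a_eq_one {n : ℕ} (h : Leh n) : Nca8c8b9b.a n = 1 := by
  obtain ⟨p, hp, hpn, hpa⟩ := a_mem (show 2 ≤ n from h.1)
  have h1 := (leh_basic h).1
  have h2 : n.factorization p ≤ 1 := Squarefree.natFactorization_le_one p h1
  have h3 : 1 ≤ n.factorization p := (hp.dvd_iff_one_le_factorization (by have := h.1; omega)).mp hpn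
  omega

theorem leh_free {n : ℕ} (h : Leh n) : Free n.primeFactors := by
  obtain ⟨h1, h2, h3⟩ := leh_basic h
  constructor
  · intro p hp
    have hpp := Nat.prime_of_mem_primeFactors hp
    have hpd := Nat.dvd_of_mem_primeFactors hp
    refine ⟨hpp, ?_⟩
    rcases hpp.eq_two_or_odd with h4 | h4
    · exfalso
      rw [h4] at hpd
      exact (Nat.not_even_iff_odd.2 h2) (even_iff_two_dvd.2 hpd)
    · have := hpp.two_le
      omega
  · intro p hp q hq hqp
    have hpd := Nat.dvd_of_mem_primeFactors hp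
    have hqd := Nat.dvd_of_mem_primeFactors hq
    have hpp := Nat.prime_of_mem_primeFactors hp
    have hqp' := Nat.prime_of_mem_primeFactors hq
    have h4 : q ∣ n.totient := by
      have := Nat.totient_dvd_of_dvd hpd
      rw [Nat.totient_prime hpp] at this
      exact hqp.trans this
    have := Nat.dvd_gcd hqd h4
    rw [Nat.Coprime.gcd_eq_one h3] at this
    exact hqp'.one_lt.ne' (Nat.dvd_one.1 this)

theorem ratio_gt {n k : ℕ} (h : Leh n) (hk : n - 1 = k * n.totient) :
    (k : ℝ) < (n : ℝ) / n.totient := by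
  have h1 := h.1
  have ht : (0 : ℝ) < n.totient := by exact_mod_cast Nat.totient_pos.2 (by omega)
  rw [lt_div_iff₀ ht]
  have : k * n.totient < n := by omega
  exact_mod_cast this

theorem three_le {n : ℕ} (h : Leh n) : 3 ≤ n.primeFactors.card := by
  obtain ⟨k, hk2, hk, -⟩ := leh_k h
  have h1 := ratio_gt h hk
  have hk2R : (2 : ℝ) ≤ k := by exact_mod_cast hk2
  have hF := leh_free h
  rw [ratio_eq (by have := h.1; omega)] at h1
  by_contra hlt
  have hb : ∀ p ∈ n.primeFactors, (1 - 1 / (p : ℝ))⁻¹ ≤ 3 / 2 := by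
    intro p hp
    have h3 : (3 : ℝ) ≤ p := by exact_mod_cast (hF.pr p hp).2
    have h4 : 1 / (p : ℝ) ≤ 1 / 3 := by gcongr
    have h5 : (2 : ℝ) / 3 ≤ 1 - 1 / (p : ℝ) := by linarith
    calc (1 - 1 / (p : ℝ))⁻¹ ≤ (2 / 3 : ℝ)⁻¹ := inv_anti₀ (by norm_num) h5
      _ = 3 / 2 := by norm_num
  have hb5 : ∀ p q : ℕ, p ∈ n.primeFactors → q ∈ n.primeFactors → p < q →
      (1 - 1 / (q : ℝ))⁻¹ ≤ 5 / 4 := by
    intro p q hp hq hpq
    have h2 := (hF.pr p hp).2
    have hq4 : q ≠ 4 := by
      intro h4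
      have := (hF.pr q hq).1
      rw [h4] at this
      exact absurd this (by decide)
    have h3 : (5 : ℝ) ≤ q := by
      have : 5 ≤ q := by omega
      exact_mod_cast this
    have h4 : 1 / (q : ℝ) ≤ 1 / 5 := by gcongr
    have h5 : (4 : ℝ) / 5 ≤ 1 - 1 / (q : ℝ) := by linarith
    calc (1 - 1 / (q : ℝ))⁻¹ ≤ (4 / 5 : ℝ)⁻¹ := inv_anti₀ (by norm_num) h5
      _ = 5 / 4 := by norm_num
  have hcases : n.primeFactors.card = 0 ∨ n.primeFactors.card = 1 ∨ n.primeFactors.card = 2 := by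
    omega
  rcases hcases with h0 | h0 | h0
  · rw [Finset.card_eq_zero] at h0
    rw [h0, prod_empty] at h1
    linarith
  · obtain ⟨p, hp⟩ := Finset.card_eq_one.1 h0
    rw [hp, prod_singleton] at h1
    have := hb p (by rw [hp]; exact mem_singleton_self p)
    linarith
  · obtain ⟨p, q, hpq, hs⟩ := Finset.card_eq_two.1 h0
    rw [hs, prod_pair hpq] at h1
    have hp : p ∈ n.primeFactors := by rw [hs]; simp
    have hq : q ∈ n.primeFactors := by rw [hs]; simp
    have g1 := hb p hp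
    have g2 := hb q hq
    have g3 := fac_ge (hF.pr p hp).1.two_le
    have g4 := fac_ge (hF.pr q hq).1.two_le
    rcases lt_or_gt_of_ne hpq with hl | hl
    · have g5 := hb5 p q hp hq hl
      nlinarith
    · have g5 := hb5 q p hq hp hl
      nlinarith

theorem exp_small (j : ℕ) (hj : 2 ≤ j) :
    Real.exp (((j : ℝ) + 1) / 100) ≤ 69 / 100 * 2 ^ (j - 1) := by
  have hsm : ∀ x : ℝ, 0 ≤ x → x ≤ 1 / 2 → Real.exp x ≤ 1 + 2 * x := by
    intro x h0 h1
    have hc := convexOn_exp.2 (Set.mem_univ (1 : ℝ)) (Set.mem_univ (0 : ℝ)) h0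
      (by linarith : 0 ≤ 1 - x) (by ring)
    simp only [smul_eq_mul, mul_zero, add_zero, Real.exp_zero, mul_one] at hc
    have := Real.exp_one_lt_d9
    nlinarith
  induction j, hj using Nat.le_induction with
  | base =>
    have := hsm (3 / 100) (by norm_num) (by norm_num)
    norm_num
    norm_num at this
    linarith
  | succ j hj ih =>
    have h1 := hsm (1 / 100) (by norm_num) (by norm_num)
    have e1 : (((j + 1 : ℕ) : ℝ) + 1) / 100 = ((j : ℝ) + 1) / 100 + 1 / 100 := by
      push_cast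
      ring
    have e2 : (2 : ℝ) ^ (j + 1 - 1) = 2 * 2 ^ (j - 1) := by
      rw [← pow_succ']
      congr 1
      omega
    rw [e1, Real.exp_add, e2]
    have h2 : (0 : ℝ) < 2 ^ (j - 1) := by positivity
    have h3 := Real.exp_pos ((j + 1 : ℝ) / 100)
    have h4 := Real.exp_pos (1 / 100 : ℝ)
    nlinarith

/-- **The quotient of a Lehmer number is at most `C log log ω(n)`.** -/
theorem index_bound : ∃ c : ℝ, 0 < c ∧ ∀ n k : ℕ, Leh n → n - 1 = k * n.totient →
    Real.exp (Real.exp (c * k)) ≤ n.primeFactors.card := by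
  obtain ⟨D, hD, hr⟩ := ratio_bound
  refine ⟨1 / (100 * D), by positivity, ?_⟩
  intro n k hL hk
  set r := n.primeFactors.card with hrd
  have hr3 : 3 ≤ r := three_le hL
  have hr3R : (3 : ℝ) ≤ r := by exact_mod_cast hr3
  obtain ⟨a, ha⟩ : ∃ a : ℕ, a = Nat.clog 2 r := ⟨_, rfl⟩
  obtain ⟨j, hj⟩ : ∃ j : ℕ, j = Nat.clog 2 a := ⟨_, rfl⟩
  have ha2 : 2 ≤ a := by
    rw [ha]
    exact (Nat.lt_clog_iff_pow_lt (by norm_num)).2 (by omega)
  have hj1 : 1 ≤ j := by
    rw [hj]
    exact (Nat.lt_clog_iff_pow_lt (by norm_num)).2 (by omega)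
  have h1 : r ≤ 2 ^ 2 ^ j := by
    calc r ≤ 2 ^ a := by rw [ha]; exact Nat.le_pow_clog (by norm_num) r
      _ ≤ 2 ^ 2 ^ j := Nat.pow_le_pow_right (by norm_num) (by
          rw [hj]; exact Nat.le_pow_clog (by norm_num) a)
  have h2 : 2 ^ 2 ^ (j - 1) ≤ r := by
    have h3 : 2 ^ (j - 1) < a := by
      rw [hj]; exact Nat.pow_pred_clog_lt_self (by norm_num) (by omega)
    have h4 : 2 ^ (a - 1) < r := by
      rw [ha]; exact Nat.pow_pred_clog_lt_self (by norm_num) (by omega)
    calc 2 ^ 2 ^ (j - 1) ≤ 2 ^ (a - 1) := Nat.pow_le_pow_right (by norm_num) (by omega)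
      _ ≤ r := h4.le
  have h3 := hr n (by have := hL.1; omega) (leh_free hL) j h1
  have h4 := ratio_gt hL hk
  have h5 : 1 / (100 * D) * (k : ℝ) ≤ ((j : ℝ) + 1) / 100 := by
    rw [one_div, inv_mul_le_iff₀ (by positivity)]
    have : (k : ℝ) ≤ D * (j + 1) := by linarith
    calc (k : ℝ) ≤ D * (j + 1) := this
      _ = _ := by ring
  have hlog3 : 109 / 100 ≤ Real.log 3 := by
    have e1 : Real.log 3 = 1 + Real.log (3 / Real.exp 1) := by
      rw [Real.log_div (by norm_num) (Real.exp_pos 1).ne', Real.log_exp]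
      ring
    have e2 := Real.one_sub_inv_le_log_of_pos (show 0 < 3 / Real.exp 1 by positivity)
    rw [inv_div] at e2
    have := Real.exp_one_lt_d9
    linarith
  have h6 : Real.exp (((j : ℝ) + 1) / 100) ≤ Real.log r := by
    rcases Nat.lt_or_ge j 2 with hj2 | hj2
    · have hj3 : j = 1 := by omega
      rw [hj3]
      have h7 : Real.exp (((1 : ℕ) + 1) / 100 : ℝ) ≤ 104 / 100 := by
        have hc := convexOn_exp.2 (Set.mem_univ (1 : ℝ)) (Set.mem_univ (0 : ℝ))
          (show (0 : ℝ) ≤ 2 / 100 by norm_num) (show (0 : ℝ) ≤ 1 - 2 / 100 by norm_num) (by norm_num)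
        simp only [smul_eq_mul, mul_zero, add_zero, Real.exp_zero, mul_one] at hc
        have := Real.exp_one_lt_d9
        have e : ((1 : ℕ) + 1 : ℝ) / 100 = 2 / 100 := by norm_num
        rw [e]
        linarith
      have h8 : Real.log 3 ≤ Real.log r := Real.log_le_log (by norm_num) hr3R
      linarith
    · refine (exp_small j hj2).trans ?_
      have h7 : Real.log ((2 : ℝ) ^ 2 ^ (j - 1)) ≤ Real.log r :=
        Real.log_le_log (by positivity) (by exact_mod_cast h2)
      rw [Real.log_pow] at h7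
      push_cast at h7
      have h8 := Real.log_two_gt_d9
      have h9 : (0 : ℝ) < 2 ^ (j - 1) := by positivity
      nlinarith
  have h7 : Real.exp (1 / (100 * D) * k) ≤ Real.log r := (Real.exp_le_exp.2 h5).trans h6
  calc Real.exp (Real.exp (1 / (100 * D) * k)) ≤ Real.exp (Real.log r) := Real.exp_le_exp.2 h7
    _ = r := Real.exp_log (by linarith)

end Pool.Agent.NH3.LT
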