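import Pool.Agent.R330.LT.PolyB

set_option autoImplicit false

/-!
# Roots of polynomials modulo prime powers
-/

namespace Pool.Agent.NH3.LT

open Finset Polynomial Pool.Agent.R330.LT

/-- roots modulo `q^b` in one class modulo `q^(δ+1)` agree modulo `q^(b-δ)` -/
theorem root_close (h u v : ℤ[X]) (R : ℤ) (hR : u * h + v * derivative h = C R) {q : ℕ}
    (hq : q.Prime) {δ b : ℕ} (hδ : ¬ (q : ℤ) ^ (δ + 1) ∣ R) (hb : 2 * δ + 1 ≤ b) {m m' : ℤ}
    (h1 : (q : ℤ) ^ b ∣ h.eval m) (h2 : (q : ℤ) ^ b ∣ h.eval m')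
    (h3 : (q : ℤ) ^ (δ + 1) ∣ m' - m) : (q : ℤ) ^ (b - δ) ∣ m' - m := by
  have hqp : Prime (q : ℤ) := Nat.prime_iff_prime_int.1 hq
  have hder : ¬ (q : ℤ) ^ (δ + 1) ∣ (derivative h).eval m := by
    intro h4
    apply hδ
    have h5 := congrArg (eval m) hR
    rw [eval_add, eval_mul, eval_mul, eval_C] at h5
    rw [← h5]
    apply dvd_add
    · exact Dvd.dvd.mul_left ((pow_dvd_pow _ (by omega)).trans h1) _
    · exact Dvd.dvd.mul_left h4 _
  have key : ∀ s, δ + 1 ≤ s → s ≤ b - δ → (q : ℤ) ^ s ∣ m' - m := by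
    intro s hs
    induction s, hs using Nat.le_induction with
    | base => intro _; exact h3
    | succ s hs ih =>
      intro hsb
      obtain ⟨w, hw⟩ := ih (by omega)
      obtain ⟨κ, hκ⟩ := binomExpansion h m (m' - m)
      rw [show m + (m' - m) = m' by ring] at hκ
      have h5 : (q : ℤ) ^ (s + δ + 1) ∣ (derivative h).eval m * (m' - m) := by
        have e1 : (derivative h).eval m * (m' - m) = h.eval m' - h.eval m - κ * (m' - m) ^ 2 := by
          rw [hκ]; ring
        rw [e1]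
        apply dvd_sub
        · exact (pow_dvd_pow _ (by omega)).trans (dvd_sub h2 h1)
        · apply Dvd.dvd.mul_left
          rw [hw, mul_pow, ← pow_mul]
          exact Dvd.dvd.mul_right (pow_dvd_pow _ (by omega)) _
      rw [hw] at h5 ⊢
      have h6 : (q : ℤ) ^ (δ + 1) ∣ (derivative h).eval m * w := by
        have hne : (q : ℤ) ^ s ≠ 0 := pow_ne_zero _ hqp.ne_zero
        apply (mul_dvd_mul_iff_left hne).1
        have e2 : (q : ℤ) ^ s * (q : ℤ) ^ (δ + 1) = (q : ℤ) ^ (s + δ + 1) := by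
          rw [← pow_add]; rfl
        have e3 : (q : ℤ) ^ s * ((derivative h).eval m * w) =
            (derivative h).eval m * ((q : ℤ) ^ s * w) := by ring
        rw [e2, e3]
        exact h5
      have h7 : (q : ℤ) ∣ w := by
        by_contra hqw
        have hc : IsCoprime ((q : ℤ) ^ (δ + 1)) w := by
          apply IsCoprime.pow_left
          exact (Prime.coprime_iff_not_dvd hqp).2 hqw
        exact hder (hc.dvd_of_dvd_mul_right h6)
      obtain ⟨w', hw'⟩ := h7
      rw [hw', ← mul_assoc, ← pow_succ]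
      exact Dvd.intro _ rfl
  exact key (b - δ) (by omega) le_rfl

/-- number of roots modulo a prime that does not divide `R` -/
theorem Rt_prime' (h u v : ℤ[X]) (R : ℤ) (hR : u * h + v * derivative h = C R) {q : ℕ}
    (hq : q.Prime) (hqR : ¬ (q : ℤ) ∣ R) : (Rt h q).card ≤ h.natDegree := by
  have : Fact q.Prime := ⟨hq⟩
  set g := h.map (Int.castRingHom (ZMod q)) with hg
  have hg0 : g ≠ 0 := by
    intro h0
    have h1 := congrArg (fun p => p.map (Int.castRingHom (ZMod q))) hR
    simp only [Polynomial.map_add, Polynomial.map_mul, ← derivative_map, map_C] at h1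
    rw [← hg, h0, derivative_zero, mul_zero, mul_zero, add_zero] at h1
    have h2 : ((R : ℤ) : ZMod q) = 0 := by
      have := C_eq_zero.1 h1.symm
      simpa using this
    exact hqR ((ZMod.intCast_zmod_eq_zero_iff_dvd _ _).1 h2)
  have hdeg : g.natDegree ≤ h.natDegree := natDegree_map_le
  have h1 : (Rt h q).card ≤ g.roots.toFinset.card := by
    apply card_le_card_of_injOn (fun m : ℕ => (m : ZMod q))
    · intro m hm
      rw [mem_coe, mem_Rt] at hm
      rw [mem_coe, Multiset.mem_toFinset, mem_roots hg0, IsRoot.def, hg]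
      have h2 : ((h.eval (m : ℤ) : ℤ) : ZMod q) = 0 :=
        (ZMod.intCast_zmod_eq_zero_iff_dvd _ _).2 hm.2
      rw [← h2]
      have := eval_intCast_map (Int.castRingHom (ZMod q)) h (m : ℤ)
      simpa using this
    · intro m hm m' hm' hmm
      rw [mem_coe, mem_Rt] at hm hm'
      have h2 := (ZMod.natCast_eq_natCast_iff' m m' q).1 hmm
      rwa [Nat.mod_eq_of_lt hm.1, Nat.mod_eq_of_lt hm'.1] at h2
  calc (Rt h q).card ≤ g.roots.toFinset.card := h1
    _ ≤ Multiset.card g.roots := g.roots.toFinset_card_le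
    _ ≤ g.natDegree := card_roots' g
    _ ≤ _ := hdeg

theorem Rt_le (f : ℤ[X]) (d : ℕ) : (Rt f d).card ≤ d := by
  calc (Rt f d).card ≤ (range d).card := card_le_card (fun m hm => mem_range.2 (mem_Rt.1 hm).1)
    _ = d := card_range d

/-- roots modulo prime powers of a polynomial with nonzero discriminant -/
theorem Rt_sep (h u v : ℤ[X]) (R : ℤ) (hR : u * h + v * derivative h = C R) {q : ℕ}
    (hq : q.Prime) {δ : ℕ} (hδ1 : (q : ℤ) ^ δ ∣ R) (hδ : ¬ (q : ℤ) ^ (δ + 1) ∣ R) (b : ℕ) :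
    (Rt h (q ^ b)).card ≤ (h.natDegree + 1) * q ^ (3 * δ) := by
  have hq1 : 1 ≤ q := hq.one_le
  rcases Nat.lt_or_ge b (2 * δ + 1) with hb | hb
  · calc (Rt h (q ^ b)).card ≤ q ^ b := Rt_le _ _
      _ ≤ q ^ (3 * δ) := Nat.pow_le_pow_right hq1 (by omega)
      _ ≤ (h.natDegree + 1) * q ^ (3 * δ) := Nat.le_mul_of_pos_left _ (by omega)
  · have h1 : (Rt h (q ^ b)).card ≤ (Rt h (q ^ (δ + 1))).card * q ^ δ := by
      have e1 : (Rt h (q ^ (δ + 1))).card * q ^ δ =
          (Rt h (q ^ (δ + 1)) ×ˢ range (q ^ δ)).card := by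
        rw [card_product, card_range]
      rw [e1]
      have hqd : 0 < q ^ (δ + 1) := by positivity
      have hqb : 0 < q ^ (b - δ) := by positivity
      apply card_le_card_of_injOn (fun m => (m % q ^ (δ + 1), m / q ^ (b - δ)))
      · intro m hm
        rw [mem_coe, mem_Rt] at hm
        rw [mem_coe, mem_product, mem_Rt, mem_range]
        refine ⟨⟨Nat.mod_lt _ hqd, ?_⟩, ?_⟩
        · have h2 : ((q ^ (δ + 1) : ℕ) : ℤ) ∣ h.eval (m : ℤ) := by
            refine Dvd.dvd.trans ?_ hm.2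
            exact_mod_cast pow_dvd_pow q (by omega : δ + 1 ≤ b)
          exact (eval_mod h (q ^ (δ + 1)) m).1 h2
        · simp only
          rw [Nat.div_lt_iff_lt_mul hqb, ← pow_add]
          have : δ + (b - δ) = b := by omega
          rw [this]
          exact hm.1
      · intro m hm m' hm' hmm
        rw [mem_coe, mem_Rt] at hm hm'
        simp only [Prod.mk.injEq] at hmm
        obtain ⟨e2, e3⟩ := hmm
        have h3 : (q : ℤ) ^ (δ + 1) ∣ (m' : ℤ) - m := by
          have := (Nat.modEq_iff_dvd.1 (show m ≡ m' [MOD q ^ (δ + 1)] from e2))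
          push_cast at this
          exact this
        have h4 := root_close h u v R hR hq hδ hb (m := (m : ℤ)) (m' := (m' : ℤ))
          (by have := hm.2; push_cast at this; exact this)
          (by have := hm'.2; push_cast at this; exact this) h3
        have h5 : m ≡ m' [MOD q ^ (b - δ)] := by
          apply Nat.modEq_iff_dvd.2
          push_cast
          exact h4
        have h6 := Nat.div_add_mod m (q ^ (b - δ))
        have h7 := Nat.div_add_mod m' (q ^ (b - δ))
        have h8 : m % q ^ (b - δ) = m' % q ^ (b - δ) := h5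
        rw [e3, h8] at h6
        omega
    rcases Nat.eq_zero_or_pos δ with h0 | h0
    · subst h0
      have h2 : (Rt h q).card ≤ h.natDegree := Rt_prime' h u v R hR hq (by simpa using hδ)
      simp only [zero_add, pow_one, pow_zero, mul_one, mul_zero] at h1 ⊢
      omega
    · calc (Rt h (q ^ b)).card ≤ (Rt h (q ^ (δ + 1))).card * q ^ δ := h1
        _ ≤ q ^ (δ + 1) * q ^ δ := Nat.mul_le_mul_right _ (Rt_le _ _)
        _ = q ^ (2 * δ + 1) := by rw [← pow_add]; congr 1; omega
        _ ≤ q ^ (3 * δ) := Nat.pow_le_pow_right hq1 (by omega)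
        _ ≤ (h.natDegree + 1) * q ^ (3 * δ) := Nat.le_mul_of_pos_left _ (by omega)

/-- divisibility of `h(m)` by a prime power when `g` divides `c h^e` -/
theorem root_pow (g h t : ℤ[X]) (c : ℤ) {e : ℕ} (he : 1 ≤ e) (hg : C c * h ^ e = g * t) {q : ℕ}
    (hq : q.Prime) {γ : ℕ} (hγ : ¬ (q : ℤ) ^ (γ + 1) ∣ c) (a : ℕ) :
    ∃ b : ℕ, a ≤ e * b + γ ∧ ∀ m : ℤ, (q : ℤ) ^ a ∣ g.eval m → (q : ℤ) ^ b ∣ h.eval m := by
  have hqp : Prime (q : ℤ) := Nat.prime_iff_prime_int.1 hq
  obtain ⟨b, hb⟩ : ∃ b, b = (a - γ + (e - 1)) / e := ⟨_, rfl⟩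
  have hb1 : a - γ ≤ e * b := by
    have h1 := Nat.div_add_mod (a - γ + (e - 1)) e
    have h2 := Nat.mod_lt (a - γ + (e - 1)) (show 0 < e by omega)
    rw [← hb] at h1
    omega
  have hb2 : e * b < a - γ + e := by
    have h1 := Nat.div_add_mod (a - γ + (e - 1)) e
    rw [← hb] at h1
    omega
  refine ⟨b, by omega, ?_⟩
  intro m hm
  have h1 := congrArg (eval m) hg
  rw [eval_mul, eval_C, eval_pow, eval_mul] at h1
  have h2 : (q : ℤ) ^ a ∣ c * h.eval m ^ e := by
    rw [h1]
    exact Dvd.dvd.mul_right hm _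
  -- write c and h(m) in terms of powers of q
  by_contra hcon
  have hh0 : h.eval m ≠ 0 := by
    intro h0
    rw [h0] at hcon
    exact hcon (dvd_zero _)
  have hc0 : c ≠ 0 := by
    intro h0
    rw [h0] at hγ
    exact hγ (dvd_zero _)
  have f1 : FiniteMultiplicity (q : ℤ) (h.eval m) :=
    FiniteMultiplicity.of_prime_left hqp hh0
  have f2 : FiniteMultiplicity (q : ℤ) c := FiniteMultiplicity.of_prime_left hqp hc0
  obtain ⟨w, hw1, hw2⟩ := f1.exists_eq_pow_mul_and_not_dvd
  obtain ⟨c', hc1, hc2⟩ := f2.exists_eq_pow_mul_and_not_dvd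
  set s := multiplicity (q : ℤ) (h.eval m) with hs
  set γ' := multiplicity (q : ℤ) c with hγ'
  have hsb : s < b := by
    by_contra hle
    rw [not_lt] at hle
    apply hcon
    rw [hw1]
    exact Dvd.dvd.mul_right (pow_dvd_pow _ hle) _
  have hγγ : γ' ≤ γ := by
    by_contra hle
    rw [not_le] at hle
    apply hγ
    rw [hc1]
    exact Dvd.dvd.mul_right (pow_dvd_pow _ hle) _
  have h3 : (q : ℤ) ^ a ∣ (q : ℤ) ^ (γ' + s * e) * (c' * w ^ e) := by
    have e1 : c * h.eval m ^ e = (q : ℤ) ^ (γ' + s * e) * (c' * w ^ e) := by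
      conv_lhs => rw [hw1, hc1]
      rw [mul_pow, ← pow_mul, pow_add]
      ring
    rwa [← e1]
  have h4 : a ≤ γ' + s * e := by
    by_contra hlt
    rw [not_le] at hlt
    have h5 : (q : ℤ) ^ (γ' + s * e + 1) ∣ (q : ℤ) ^ (γ' + s * e) * (c' * w ^ e) :=
      (pow_dvd_pow _ hlt).trans h3
    rw [pow_succ] at h5
    have hne : (q : ℤ) ^ (γ' + s * e) ≠ 0 := pow_ne_zero _ hqp.ne_zero
    have h6 := (mul_dvd_mul_iff_left hne).1 h5
    rcases hqp.dvd_or_dvd h6 with h7 | h7
    · exact hc2 h7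
    · exact hw2 (hqp.dvd_of_dvd_pow h7)
  have h5 : s * e + e ≤ e * b := by
    have : (s + 1) * e ≤ b * e := Nat.mul_le_mul_right _ hsb
    rw [mul_comm e b]
    linarith
  omega

end Pool.Agent.NH3.LT
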