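import Pool.Agent.NH3.LT.PA1

set_option autoImplicit false

/-!
# Roots of polynomials modulo an integer
-/

namespace Pool.Agent.NH3.LT

open Finset Polynomial Pool.Agent.R330.LT

theorem Rt_fac (g : ℤ[X]) (v : ℕ) : (Rt g v).card ≤
    ∏ q ∈ v.primeFactors, (Rt g (q ^ v.factorization q)).card := by
  induction v using Nat.recOnPosPrimePosCoprime with
  | prime_pow p n hp hn =>
    rw [Nat.primeFactors_prime_pow (by omega) hp, prod_singleton, Nat.Prime.factorization_pow hp,
      Finsupp.single_eq_same]
  | zero =>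
    have := Rt_le g 0
    omega
  | one =>
    simp only [Nat.primeFactors_one, prod_empty]
    exact Rt_le g 1
  | coprime a b ha hb hab iha ihb =>
    rw [hab.primeFactors_mul, prod_union hab.disjoint_primeFactors]
    refine (Rt_mul g (by omega) (by omega) hab).trans ?_
    have h1 : ∏ q ∈ a.primeFactors, (Rt g (q ^ (a * b).factorization q)).card =
        ∏ q ∈ a.primeFactors, (Rt g (q ^ a.factorization q)).card := by
      apply prod_congr rfl
      intro q hq
      rw [Nat.factorization_eq_of_coprime_left hab (by simpa using hq)]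
    have h2 : ∏ q ∈ b.primeFactors, (Rt g (q ^ (a * b).factorization q)).card =
        ∏ q ∈ b.primeFactors, (Rt g (q ^ b.factorization q)).card := by
      apply prod_congr rfl
      intro q hq
      rw [Nat.factorization_eq_of_coprime_right hab (by simpa using hq)]
    rw [h1, h2]
    exact Nat.mul_le_mul iha ihb

theorem prod_fac_le {N : ℕ} (hN : N ≠ 0) (S : Finset ℕ) :
    ∏ q ∈ S, q ^ N.factorization q ≤ N := by
  classical
  have h1 : ∏ q ∈ S, q ^ N.factorization q =
      ∏ q ∈ S.filter (fun q => q ∈ N.primeFactors), q ^ N.factorization q := by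
    rw [prod_filter]
    apply prod_congr rfl
    intro q _
    split_ifs with h
    · rfl
    · rw [← Nat.support_factorization, Finsupp.notMem_support_iff] at h
      rw [h, pow_zero]
  rw [h1]
  calc ∏ q ∈ S.filter (fun q => q ∈ N.primeFactors), q ^ N.factorization q ≤
      ∏ q ∈ N.primeFactors, q ^ N.factorization q := by
        apply Finset.prod_le_prod_of_subset_of_one_le'
        · intro q hq
          exact (mem_filter.1 hq).2
        · intro q hq _
          exact Nat.one_le_pow _ _ (Nat.prime_of_mem_primeFactors hq).pos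
    _ = N := Nat.prod_factorization_pow_eq_self hN

/-- roots modulo an integer of a polynomial with nonzero discriminant -/
theorem Rt_sep_all (h u w : ℤ[X]) (R : ℤ) (hR0 : R ≠ 0) (hR : u * h + w * derivative h = C R)
    (v : ℕ) : (Rt h v).card ≤ R.natAbs ^ 3 * (h.natDegree + 1) ^ v.primeFactors.card := by
  set N := R.natAbs with hN
  have hN0 : N ≠ 0 := Int.natAbs_ne_zero.2 hR0
  refine (Rt_fac h v).trans ?_
  calc ∏ q ∈ v.primeFactors, (Rt h (q ^ v.factorization q)).card ≤
      ∏ q ∈ v.primeFactors, ((h.natDegree + 1) * (q ^ N.factorization q) ^ 3) := by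
        apply prod_le_prod'
        intro q hq
        have hqp := Nat.prime_of_mem_primeFactors hq
        have hδ1 : (q : ℤ) ^ (N.factorization q) ∣ R := by
          have : q ^ (N.factorization q) ∣ N := Nat.ordProj_dvd N q
          have h2 := Int.natCast_dvd.2 this
          push_cast at h2
          exact h2
        have hδ2 : ¬ (q : ℤ) ^ (N.factorization q + 1) ∣ R := by
          intro h1
          have h2 : ((q ^ (N.factorization q + 1) : ℕ) : ℤ) ∣ R := by push_cast; exact h1
          exact Nat.pow_succ_factorization_not_dvd hN0 hqp (Int.natCast_dvd.1 h2)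
        have h4 := Rt_sep h u w R hR hqp hδ1 hδ2 (v.factorization q)
        rwa [← pow_mul, mul_comm (N.factorization q) 3]
    _ = (∏ q ∈ v.primeFactors, q ^ N.factorization q) ^ 3 *
        (h.natDegree + 1) ^ v.primeFactors.card := by
        rw [prod_mul_distrib, prod_const, prod_pow, mul_comm]
    _ ≤ _ := by
        apply Nat.mul_le_mul_right
        exact Nat.pow_le_pow_left (prod_fac_le hN0 _) 3

/-- for `g` dividing `c h^e`: if `v` divides `g(m)` then `λ` divides `h(m)` with `v ≤ |c| λ^e` -/
theorem exists_lam (g h t : ℤ[X]) (c : ℤ) {e : ℕ} (he : 1 ≤ e) (hc : c ≠ 0)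
    (hg : C c * h ^ e = g * t) (v : ℕ) (hv : 1 ≤ v) :
    ∃ l : ℕ, 1 ≤ l ∧ v ≤ c.natAbs * l ^ e ∧ (∀ q, q.Prime → q ∣ l → q ∣ v) ∧
      ∀ m : ℤ, (v : ℤ) ∣ g.eval m → (l : ℤ) ∣ h.eval m := by
  classical
  set M := c.natAbs with hM
  have hM0 : M ≠ 0 := Int.natAbs_ne_zero.2 hc
  have hex : ∀ q ∈ v.primeFactors, ∃ b : ℕ, v.factorization q ≤ e * b + M.factorization q ∧
      ∀ m : ℤ, (q : ℤ) ^ (v.factorization q) ∣ g.eval m → (q : ℤ) ^ b ∣ h.eval m := by
    intro q hq
    have hqp := Nat.prime_of_mem_primeFactors hq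
    apply root_pow g h t c he hg hqp
    intro h1
    have h2 : ((q ^ (M.factorization q + 1) : ℕ) : ℤ) ∣ c := by push_cast; exact h1
    exact Nat.pow_succ_factorization_not_dvd hM0 hqp (Int.natCast_dvd.1 h2)
  choose! b hb using hex
  have hpos : 1 ≤ ∏ q ∈ v.primeFactors, q ^ b q :=
    Nat.pos_of_ne_zero (Finset.prod_ne_zero_iff.2 fun q hq =>
      pow_ne_zero _ (Nat.prime_of_mem_primeFactors hq).ne_zero)
  refine ⟨∏ q ∈ v.primeFactors, q ^ b q, hpos, ?_, ?_, ?_⟩
  · have h1 : v = ∏ q ∈ v.primeFactors, q ^ v.factorization q :=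
      (Nat.prod_factorization_pow_eq_self (n := v) (by omega)).symm
    calc v = ∏ q ∈ v.primeFactors, q ^ v.factorization q := h1
      _ ≤ ∏ q ∈ v.primeFactors, (q ^ M.factorization q * (q ^ b q) ^ e) := by
          apply prod_le_prod'
          intro q hq
          have hqp := Nat.prime_of_mem_primeFactors hq
          rw [← pow_mul, ← pow_add]
          apply Nat.pow_le_pow_right hqp.pos
          have := (hb q hq).1
          rw [mul_comm (b q) e]
          omega
      _ = (∏ q ∈ v.primeFactors, q ^ M.factorization q) * (∏ q ∈ v.primeFactors, q ^ b q) ^ e := by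
          rw [prod_mul_distrib, prod_pow]
      _ ≤ _ := Nat.mul_le_mul_right _ (prod_fac_le hM0 _)
  · intro q hq hql
    obtain ⟨r, hr, hqr⟩ := (Prime.dvd_finset_prod_iff hq.prime _).1 hql
    have h1 := hq.dvd_of_dvd_pow hqr
    have h2 := (Nat.prime_dvd_prime_iff_eq hq (Nat.prime_of_mem_primeFactors hr)).1 h1
    rw [h2]
    exact Nat.dvd_of_mem_primeFactors hr
  · intro m hm
    push_cast
    apply Finset.prod_dvd_of_coprime
    · intro q hq r hr hqr
      apply IsCoprime.pow
      exact Nat.isCoprime_iff_coprime.2 ((Nat.coprime_primes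
        (Nat.prime_of_mem_primeFactors (mem_coe.1 hq))
        (Nat.prime_of_mem_primeFactors (mem_coe.1 hr))).2 hqr)
    · intro q hq
      apply (hb q hq).2
      refine Dvd.dvd.trans ?_ hm
      have : q ^ v.factorization q ∣ v := Nat.ordProj_dvd v q
      have h2 : ((q ^ v.factorization q : ℕ) : ℤ) ∣ (v : ℤ) := by exact_mod_cast this
      push_cast at h2
      exact h2

end Pool.Agent.NH3.LT
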