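import Pool.Agent.NH3.LT.PA2
import Pool.Agent.NH3.LT.Dn
import Pool.Agent.R330.LT.PolyC

set_option autoImplicit false

/-!
# Lehmer numbers among the values of a polynomial at the integers of a short interval
-/

namespace Pool.Agent.NH3.LT

open Finset Polynomial Pool.Agent.R330.LT Pool.Agent.H95R2.Leh

open Classical in
/-- arguments in `(x, x+y]` with `d ∣ f(m)` and `l ∣ h(m)` -/
theorem count_cls (f h : ℤ[X]) {d v x y : ℕ} (hd : 0 < d) (hv : 0 < v) (hcop : Nat.Coprime d v) :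
    ((((Ioc x (x + y)).filter (fun m : ℕ => (d : ℤ) ∣ f.eval (m : ℤ) ∧
      (v : ℤ) ∣ h.eval (m : ℤ))).card : ℕ) : ℝ) ≤
      ((Rt f d).card : ℝ) * (Rt h v).card * ((y : ℝ) / (d * v) + 1) := by
  have h1 := card_le_mul_card_image_of_maps_to (s := (Ioc x (x + y)).filter (fun m : ℕ =>
      (d : ℤ) ∣ f.eval (m : ℤ) ∧ (v : ℤ) ∣ h.eval (m : ℤ))) (t := Rt f d ×ˢ Rt h v)
    (f := fun m => (m % d, m % v)) (fun m hm => by
      rw [mem_filter] at hm
      rw [mem_product, mem_Rt, mem_Rt]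
      exact ⟨⟨Nat.mod_lt _ hd, (eval_mod f d m).1 hm.2.1⟩,
        ⟨Nat.mod_lt _ hv, (eval_mod h v m).1 hm.2.2⟩⟩) (y / (d * v) + 1) (fun b _ => by
      apply Pool.Agent.Y928.LS.card_short (d * v) x y (Nat.mul_pos hd hv)
      · intro m hm
        rw [mem_filter, mem_filter] at hm
        exact mem_Ioc.1 hm.1.1
      · intro m hm m' hm'
        rw [mem_filter] at hm hm'
        have e1 := hm.2.trans hm'.2.symm
        rw [Prod.mk.injEq] at e1
        exact (Nat.modEq_and_modEq_iff_modEq_mul hcop).1 e1)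
  rw [card_product] at h1
  have h2 : ((y / (d * v) : ℕ) : ℝ) ≤ (y : ℝ) / ((d * v : ℕ) : ℝ) := Nat.cast_div_le
  push_cast at h2
  calc ((((Ioc x (x + y)).filter (fun m : ℕ => (d : ℤ) ∣ f.eval (m : ℤ) ∧
      (v : ℤ) ∣ h.eval (m : ℤ))).card : ℕ) : ℝ) ≤
      (((y / (d * v) + 1) * ((Rt f d).card * (Rt h v).card) : ℕ) : ℝ) := by exact_mod_cast h1
    _ = ((Rt f d).card : ℝ) * (Rt h v).card * (((y / (d * v) : ℕ) : ℝ) + 1) := by push_cast; ring
    _ ≤ _ := by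
        apply mul_le_mul_of_nonneg_left _ (by positivity)
        linarith

/-- the real estimate for one divisor -/
theorem one_d {d v l K M e : ℕ} {y z : ℝ} (hy : 0 ≤ y) (hz : 1 ≤ z) (hK : 1 ≤ K) (hM : 1 ≤ M)
    (he : 1 ≤ e) (hzy : z ^ (e + 1) = y ^ e) (hd1 : z / (16 * K) < d) (hl : 1 ≤ l)
    (hv2 : d ≤ (K + 1) * v) (hvl : v ≤ M * l ^ e) :
    y / (d * l) ≤ (16 * K) ^ 2 * ((K + 1) * M) := by
  have hKR : (1 : ℝ) ≤ K := by exact_mod_cast hK
  have hMR : (1 : ℝ) ≤ M := by exact_mod_cast hM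
  have hz0 : 0 < z := by linarith
  have hd0 : (0 : ℝ) < d := lt_trans (by positivity) hd1
  have hlR : (1 : ℝ) ≤ l := by exact_mod_cast hl
  have hl0 : (0 : ℝ) < l := by linarith
  have hdv : (d : ℝ) ≤ (K + 1) * v := by exact_mod_cast hv2
  have hvlR : (v : ℝ) ≤ M * (l : ℝ) ^ e := by exact_mod_cast hvl
  have h3 : z ≤ 16 * K * d := by
    rw [div_lt_iff₀ (by positivity)] at hd1
    linarith
  rw [div_le_iff₀ (by positivity)]
  apply le_of_pow_le_pow_left₀ (n := e) (by omega) (by positivity)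
  rw [← hzy]
  have h4 : (d : ℝ) ≤ (K + 1) * (M * (l : ℝ) ^ e) := hdv.trans (mul_le_mul_of_nonneg_left hvlR (by positivity))
  calc z ^ (e + 1) = z ^ e * z := pow_succ _ _
    _ ≤ (16 * K * d) ^ e * (16 * K * d) :=
        mul_le_mul (pow_le_pow_left₀ hz0.le h3 e) h3 hz0.le (by positivity)
    _ ≤ (16 * K * d) ^ e * (16 * K * ((K + 1) * (M * (l : ℝ) ^ e))) := by
        apply mul_le_mul_of_nonneg_left _ (by positivity)
        exact mul_le_mul_of_nonneg_left h4 (by positivity)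
    _ = (16 * K) ^ e * ((16 * K) * ((K + 1) * M)) * (d ^ e * (l : ℝ) ^ e) := by ring
    _ ≤ (16 * K) ^ e * ((16 * K) ^ e * ((K + 1) * M) ^ e) * (d ^ e * (l : ℝ) ^ e) := by
        apply mul_le_mul_of_nonneg_right _ (by positivity)
        apply mul_le_mul_of_nonneg_left _ (by positivity)
        have g1 : (16 * K : ℝ) ≤ (16 * K) ^ e := by
          have : (1 : ℝ) ≤ 16 * K := by linarith
          exact le_self_pow₀ this (by omega)
        have g2 : ((K : ℝ) + 1) * M ≤ (((K : ℝ) + 1) * M) ^ e := by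
          have : (1 : ℝ) ≤ ((K : ℝ) + 1) * M := by nlinarith
          exact le_self_pow₀ this (by omega)
        exact mul_le_mul g1 g2 (by positivity) (by positivity)
    _ = ((16 * K) ^ 2 * ((K + 1) * M) * (d * l)) ^ e := by
        have e1 : ((16 * K : ℝ) ^ 2) ^ e = (16 * K : ℝ) ^ e * (16 * K : ℝ) ^ e := by
          rw [← pow_mul, mul_comm 2 e, pow_mul]
          exact pow_two _
        rw [mul_pow ((16 * K : ℝ) ^ 2 * (((K : ℝ) + 1) * M)) ((d : ℝ) * l) e,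
          mul_pow ((16 * K : ℝ) ^ 2) (((K : ℝ) + 1) * M) e, e1, mul_pow (d : ℝ) (l : ℝ) e]
        ring

theorem omega_bound (f : ℤ[X]) {k : ℕ} (hk : f.natDegree = k) (η : ℝ) (hη : 0 < η) :
    ∃ C : ℝ, 1 ≤ C ∧ ∀ X : ℕ, 1 ≤ X → ∃ K : ℕ, 1 ≤ K ∧ (K : ℝ) ≤ C * (X : ℝ) ^ η ∧
      ∀ m n : ℕ, m ∈ Icc 1 X → f.eval (m : ℤ) = n → 1 ≤ n → n.primeFactors.card ≤ K := by
  have hl2 : 0 < Real.log 2 := Real.log_pos (by norm_num)
  have hCf1 : 1 ≤ Cf f := by unfold Cf; omega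
  have hCfR : (1 : ℝ) ≤ Cf f := by exact_mod_cast hCf1
  have hlCf : 0 ≤ Real.log (Cf f) := Real.log_nonneg hCfR
  refine ⟨Real.log (Cf f) / Real.log 2 + 1 + k / (η * Real.log 2), ?_, ?_⟩
  · have h1 : 0 ≤ Real.log (Cf f) / Real.log 2 := by positivity
    have h2 : 0 ≤ (k : ℝ) / (η * Real.log 2) := by positivity
    linarith
  intro X hX
  have hXR : (1 : ℝ) ≤ X := by exact_mod_cast hX
  have hX0 : (0 : ℝ) < X := by linarith
  refine ⟨Nat.log 2 (Cf f * X ^ k) + 1, by omega, ?_, ?_⟩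
  · have h1 : (Nat.log 2 (Cf f * X ^ k) : ℝ) ≤ Real.log ((Cf f * X ^ k : ℕ) : ℝ) / Real.log 2 := by
      rw [le_div_iff₀ hl2]
      have h2 : 2 ^ Nat.log 2 (Cf f * X ^ k) ≤ Cf f * X ^ k :=
        Nat.pow_log_le_self 2 (by positivity)
      have h3 : ((2 : ℝ)) ^ Nat.log 2 (Cf f * X ^ k) ≤ ((Cf f * X ^ k : ℕ) : ℝ) := by
        exact_mod_cast h2
      have h4 := Real.log_le_log (by positivity) h3
      rwa [Real.log_pow] at h4
    have h2 : Real.log ((Cf f * X ^ k : ℕ) : ℝ) = Real.log (Cf f) + k * Real.log X := by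
      push_cast
      rw [Real.log_mul (by linarith) (by positivity), Real.log_pow]
    have h3 : Real.log X ≤ (X : ℝ) ^ η / η := Real.log_le_rpow_div hX0.le hη
    have h4 : (1 : ℝ) ≤ (X : ℝ) ^ η := Real.one_le_rpow hXR hη.le
    push_cast
    rw [h2] at h1
    have h5 : (k : ℝ) * Real.log X / Real.log 2 ≤ k / (η * Real.log 2) * (X : ℝ) ^ η := by
      rw [div_mul_eq_mul_div, div_le_div_iff₀ hl2 (by positivity)]
      have h6 : (k : ℝ) * Real.log X ≤ k * ((X : ℝ) ^ η / η) :=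
        mul_le_mul_of_nonneg_left h3 (Nat.cast_nonneg k)
      calc (k : ℝ) * Real.log X * (η * Real.log 2) ≤ k * ((X : ℝ) ^ η / η) * (η * Real.log 2) :=
            mul_le_mul_of_nonneg_right h6 (by positivity)
        _ = _ := by field_simp
    have h6 : Real.log (Cf f) / Real.log 2 + 1 ≤
        (Real.log (Cf f) / Real.log 2 + 1) * (X : ℝ) ^ η :=
      le_mul_of_one_le_right (by positivity) h4
    rw [add_div] at h1
    linarith
  · intro m n hm hn hn1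
    exact (omega_le (by omega)).trans ((Nat.log_mono_right (eval_le f hk hm hn)).trans (by omega))

open Classical in
/-- **Lehmer numbers among the values of a polynomial.** -/
theorem count_poly (f t h u w : ℤ[X]) (c R : ℤ) {k e : ℕ} (hk : f.natDegree = k) (hk1 : 1 ≤ k)
    (he : 1 ≤ e) (hc : c ≠ 0) (hR0 : R ≠ 0) (hg : C c * h ^ e = (f - C 1) * t)
    (hR : u * h + w * derivative h = C R) (ε : ℝ) (hε : 0 < ε) :
    ∃ B : ℝ, 0 < B ∧ ∀ x y : ℕ, 1 ≤ y → ∀ A : Finset ℕ,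
      (∀ m ∈ A, m ∈ Ioc x (x + y) ∧ ∃ n : ℕ, f.eval (m : ℤ) = n ∧ Leh n) →
      (A.card : ℝ) ≤ B * (y : ℝ) ^ ((e : ℝ) / (e + 1)) * ((x : ℝ) + y) ^ ε := by
  obtain ⟨η, hη⟩ : ∃ η : ℝ, η = ε / 5 := ⟨_, rfl⟩
  have hη0 : 0 < η := by rw [hη]; positivity
  obtain ⟨C1, hC1, hom⟩ := omega_bound f hk η hη0
  obtain ⟨C2, hC2, ht1⟩ := const_pow_le k η hη0
  obtain ⟨C3, hC3, ht2⟩ := const_pow_le (h.natDegree + 1) η hη0
  set A1 : ℝ := (R.natAbs : ℝ) ^ 3 with hA1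
  have hA10 : 0 ≤ A1 := by positivity
  set a : ℕ := f.leadingCoeff.natAbs with ha
  set M : ℕ := c.natAbs with hM
  have hM1 : 1 ≤ M := Nat.one_le_iff_ne_zero.2 (Int.natAbs_ne_zero.2 hc)
  have hMR : (1 : ℝ) ≤ M := by exact_mod_cast hM1
  have heR : (1 : ℝ) ≤ e := by exact_mod_cast he
  have hkR : (1 : ℝ) ≤ k := by exact_mod_cast hk1
  have hlam := fun v hv => exists_lam (f - C 1) h t c he hc hg v hv
  choose! lam hlam1 hlam2 hlam3 hlam4 using hlam
  refine ⟨2 * k + a * C2 * A1 * C3 * (513 * M * C1 ^ 3), by positivity, ?_⟩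
  intro x y hy A hA
  have hyR : (1 : ℝ) ≤ y := by exact_mod_cast hy
  have hy0 : (0 : ℝ) < y := by linarith
  obtain ⟨X, hX⟩ : ∃ X : ℕ, X = x + y := ⟨_, rfl⟩
  have hX1 : 1 ≤ X := by omega
  have hXR : (1 : ℝ) ≤ X := by exact_mod_cast hX1
  have hX0 : (0 : ℝ) < X := by linarith
  have hXe : (x : ℝ) + y = X := by rw [hX]; push_cast; ring
  have hyX : (y : ℝ) ≤ X := by rw [← hXe]; have : (0 : ℝ) ≤ x := Nat.cast_nonneg x; linarith
  rw [hXe]
  obtain ⟨K, hK1, hKX, hKω⟩ := hom X hX1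
  have hKR : (1 : ℝ) ≤ K := by exact_mod_cast hK1
  obtain ⟨z, hz⟩ : ∃ z : ℝ, z = (y : ℝ) ^ ((e : ℝ) / (e + 1)) := ⟨_, rfl⟩
  rw [← hz]
  have hz1 : 1 ≤ z := by rw [hz]; exact Real.one_le_rpow hyR (by positivity)
  have hz0 : 0 < z := by linarith
  have hzz : z ^ (e + 1) = (y : ℝ) ^ e := by
    rw [hz, ← Real.rpow_natCast ((y : ℝ) ^ ((e : ℝ) / (e + 1))) (e + 1),
      ← Real.rpow_mul hy0.le, ← Real.rpow_natCast (y : ℝ) e]
    congr 1
    push_cast
    field_simp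
  have hzy : z ≤ y := by
    rw [hz]
    calc (y : ℝ) ^ ((e : ℝ) / (e + 1)) ≤ (y : ℝ) ^ (1 : ℝ) := by
          apply Real.rpow_le_rpow_of_exponent_le hyR
          rw [div_le_one (by linarith)]
          linarith
      _ = y := Real.rpow_one _
  obtain ⟨Z, hZ⟩ : ∃ Z : ℕ, Z = ⌊z⌋₊ := ⟨_, rfl⟩
  have hZz : (Z : ℝ) ≤ z := by rw [hZ]; exact Nat.floor_le (by linarith)
  obtain ⟨D, hD⟩ : ∃ D : Finset ℕ, D = (Icc 1 Z).filter (fun d : ℕ => z / (16 * K) < (d : ℝ) ∧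
    Squarefree d ∧ Nat.Coprime d d.totient ∧ d ≤ (K + 1) * d.totient) := ⟨_, rfl⟩
  obtain ⟨Cd, hCd⟩ : ∃ Cd : ℕ → Finset ℕ, Cd = fun d : ℕ => (Ioc x (x + y)).filter (fun m : ℕ =>
    (d : ℤ) ∣ f.eval (m : ℤ) ∧ (lam d.totient : ℤ) ∣ h.eval (m : ℤ)) := ⟨_, rfl⟩
  have hsub : A ⊆ A.filter (fun m : ℕ => ∃ n : ℕ, f.eval (m : ℤ) = n ∧ n < Z + 1) ∪
      D.biUnion Cd := by
    intro m hm
    obtain ⟨hm1, n, hn1, hn2⟩ := hA m hm
    rw [mem_union]
    rcases Nat.lt_or_ge n (Z + 1) with h4 | h4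
    · left
      rw [mem_filter]
      exact ⟨hm, n, hn1, h4⟩
    · right
      have hzn : z ≤ n := by
        have h5 : z < (Z : ℝ) + 1 := by rw [hZ]; exact Nat.lt_floor_add_one z
        have h6 : ((Z : ℝ) + 1) ≤ n := by exact_mod_cast h4
        linarith
      have hmX : m ∈ Icc 1 X := by
        rw [mem_Ioc] at hm1
        rw [mem_Icc]
        omega
      have hω := hKω m n hmX hn1 hn2.1.le
      obtain ⟨d, hdn, hd1, hd2⟩ := exists_dense hn2 hK1 hω hz1 hzn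
      obtain ⟨e1, e2, e3, e4⟩ := dvd_facts hn2 hdn
      rw [mem_biUnion]
      refine ⟨d, ?_, ?_⟩
      · rw [hD, mem_filter, mem_Icc]
        refine ⟨⟨e1, by rw [hZ]; exact Nat.le_floor hd2⟩, hd1, e2, e3, ?_⟩
        refine (le_omega_mul_totient d).trans ?_
        apply Nat.mul_le_mul_right
        have : d.primeFactors.card ≤ n.primeFactors.card :=
          card_le_card (Nat.primeFactors_mono hdn (by have := hn2.1; omega))
        omega
      · rw [hCd, mem_filter]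
        refine ⟨hm1, by rw [hn1]; exact_mod_cast hdn, ?_⟩
        apply hlam4 d.totient (Nat.totient_pos.2 (by omega))
        rw [eval_sub, eval_C, hn1]
        have hn3 : 1 ≤ n := hn2.1.le
        have : ((n : ℤ) - 1) = ((n - 1 : ℕ) : ℤ) := by push_cast [Nat.cast_sub hn3]; ring
        rw [this]
        exact_mod_cast e4
  have h1 : (A.filter (fun m : ℕ => ∃ n : ℕ, f.eval (m : ℤ) = n ∧ n < Z + 1)).card ≤ k * (Z + 1) :=
    small_values f hk hk1 (Z + 1) _ (fun m hm => (mem_filter.1 hm).2)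
  have hXη : (1 : ℝ) ≤ (X : ℝ) ^ η := Real.one_le_rpow hXR hη0.le
  have h2 : ∀ d ∈ D, ((Cd d).card : ℝ) ≤
      (a * (C2 * (X : ℝ) ^ η)) * (A1 * (C3 * (X : ℝ) ^ η)) *
        ((16 * K) ^ 2 * ((K + 1) * M) + 1) := by
    intro d hd
    rw [hD, mem_filter, mem_Icc] at hd
    obtain ⟨⟨hd1, hd2⟩, hd3, hd4, hd5, hd6⟩ := hd
    have hφ1 : 1 ≤ d.totient := Nat.totient_pos.2 (by omega)
    have hφd : d.totient ≤ d := Nat.totient_le d
    have hdz : (d : ℝ) ≤ z := le_trans (by exact_mod_cast hd2) hZz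
    have hd0 : (0 : ℝ) < d := by exact_mod_cast hd1
    have hφ0 : (0 : ℝ) < d.totient := by exact_mod_cast hφ1
    have hφz : (d.totient : ℝ) ≤ X := by
      have : (d.totient : ℝ) ≤ d := by exact_mod_cast hφd
      linarith
    obtain ⟨l, hl⟩ : ∃ l : ℕ, l = lam d.totient := ⟨_, rfl⟩
    have hl1 : 1 ≤ l := by rw [hl]; exact hlam1 _ hφ1
    have hcop : Nat.Coprime d l := by
      rw [Nat.coprime_iff_gcd_eq_one]
      by_contra hne
      obtain ⟨p, hp, hpd⟩ := Nat.exists_prime_and_dvd hne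
      have q1 := hpd.trans (Nat.gcd_dvd_left _ _)
      have q2 := hpd.trans (Nat.gcd_dvd_right _ _)
      rw [hl] at q2
      have q3 := hlam3 _ hφ1 p hp q2
      have q4 := Nat.dvd_gcd q1 q3
      rw [Nat.Coprime.gcd_eq_one hd5] at q4
      exact hp.one_lt.ne' (Nat.dvd_one.1 q4)
    have g1 := count_cls f h (x := x) (y := y) (show 0 < d by omega)
      (show 0 < l by omega) hcop
    have g2 : ((Rt f d).card : ℝ) ≤ a * (C2 * (X : ℝ) ^ η) := by
      have q1 := Rt_card f hk hk1 hd4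
      have q2 : ((Rt f d).card : ℝ) ≤ a * (k : ℝ) ^ d.primeFactors.card := by exact_mod_cast q1
      refine q2.trans (mul_le_mul_of_nonneg_left ?_ (Nat.cast_nonneg _))
      refine (ht1 d hd1).trans (mul_le_mul_of_nonneg_left ?_ (by linarith))
      exact Real.rpow_le_rpow hd0.le (by linarith) hη0.le
    have g3 : ((Rt h l).card : ℝ) ≤ A1 * (C3 * (X : ℝ) ^ η) := by
      have q1 := Rt_sep_all h u w R hR0 hR l
      have q0 : l.primeFactors.card ≤ d.totient.primeFactors.card := by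
        apply card_le_card
        intro p hp
        rw [Nat.mem_primeFactors] at hp ⊢
        refine ⟨hp.1, hlam3 _ hφ1 p hp.1 (by rw [← hl]; exact hp.2.1), by omega⟩
      have q2 : (Rt h l).card ≤ R.natAbs ^ 3 * (h.natDegree + 1) ^ d.totient.primeFactors.card :=
        q1.trans (Nat.mul_le_mul_left _ (Nat.pow_le_pow_right (by omega) q0))
      have q3 : ((Rt h l).card : ℝ) ≤
          A1 * ((h.natDegree + 1 : ℕ) : ℝ) ^ d.totient.primeFactors.card := by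
        rw [hA1]
        exact_mod_cast q2
      refine q3.trans (mul_le_mul_of_nonneg_left ?_ hA10)
      refine (ht2 d.totient hφ1).trans (mul_le_mul_of_nonneg_left ?_ (by linarith))
      exact Real.rpow_le_rpow hφ0.le hφz hη0.le
    have g4 := one_d (y := (y : ℝ)) (d := d) (v := d.totient) (l := l) (K := K) (M := M) (e := e)
      hy0.le hz1 hK1 hM1 he hzz hd3 hl1 hd6 (by rw [hl]; exact hlam2 _ hφ1)
    rw [hCd]
    simp only
    rw [← hl]
    calc _ ≤ ((Rt f d).card : ℝ) * (Rt h l).card * ((y : ℝ) / (d * l) + 1) := g1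
      _ ≤ (a * (C2 * (X : ℝ) ^ η)) * (A1 * (C3 * (X : ℝ) ^ η)) * ((y : ℝ) / (d * l) + 1) := by
          apply mul_le_mul_of_nonneg_right _ (by positivity)
          exact mul_le_mul g2 g3 (Nat.cast_nonneg _) (by positivity)
      _ ≤ _ := mul_le_mul_of_nonneg_left (by linarith) (by positivity)
  have hDcard : (D.card : ℝ) ≤ z := by
    have : D.card ≤ (Icc 1 Z).card := by rw [hD]; exact card_filter_le _ _
    rw [Nat.card_Icc, Nat.add_sub_cancel] at this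
    have h3 : (D.card : ℝ) ≤ Z := by exact_mod_cast this
    linarith
  have h3 : ((D.biUnion Cd).card : ℝ) ≤ z * ((a * (C2 * (X : ℝ) ^ η)) * (A1 * (C3 * (X : ℝ) ^ η)) *
        ((16 * K) ^ 2 * ((K + 1) * M) + 1)) := by
    calc ((D.biUnion Cd).card : ℝ) ≤ ∑ d ∈ D, ((Cd d).card : ℝ) := by
          exact_mod_cast card_biUnion_le
      _ ≤ ∑ _d ∈ D, ((a * (C2 * (X : ℝ) ^ η)) * (A1 * (C3 * (X : ℝ) ^ η)) *
        ((16 * K) ^ 2 * ((K + 1) * M) + 1)) := sum_le_sum h2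
      _ = D.card * ((a * (C2 * (X : ℝ) ^ η)) * (A1 * (C3 * (X : ℝ) ^ η)) *
        ((16 * K) ^ 2 * ((K + 1) * M) + 1)) := by rw [sum_const, nsmul_eq_mul]
      _ ≤ _ := mul_le_mul_of_nonneg_right hDcard (by positivity)
  have h4 : (A.card : ℝ) ≤ k * (Z + 1) + z * ((a * (C2 * (X : ℝ) ^ η)) * (A1 * (C3 * (X : ℝ) ^ η)) *
        ((16 * K) ^ 2 * ((K + 1) * M) + 1)) := by
    have h5 := (card_le_card hsub).trans (card_union_le _ _)
    have h6 : (A.card : ℝ) ≤ ((k * (Z + 1) : ℕ) : ℝ) + ((D.biUnion Cd).card : ℝ) := by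
      have := h5.trans (Nat.add_le_add_right h1 _)
      exact_mod_cast this
    push_cast at h6
    linarith
  have hKpow : (16 * K : ℝ) ^ 2 * ((K + 1) * M) + 1 ≤ 513 * M * C1 ^ 3 * ((X : ℝ) ^ η) ^ 3 := by
    have h5 : (16 * K : ℝ) ^ 2 * ((K + 1) * M) + 1 ≤ 513 * M * (K : ℝ) ^ 3 := by
      have q1 : (1 : ℝ) ≤ (K : ℝ) ^ 3 := one_le_pow₀ hKR
      have q2 : (K : ℝ) ^ 2 ≤ (K : ℝ) ^ 3 := pow_le_pow_right₀ hKR (by norm_num)
      have q3 : (16 * K : ℝ) ^ 2 * (K + 1) ≤ 512 * (K : ℝ) ^ 3 := by nlinarith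
      have q4 : (1 : ℝ) ≤ M * (K : ℝ) ^ 3 := by nlinarith
      calc (16 * K : ℝ) ^ 2 * ((K + 1) * M) + 1 = ((16 * K : ℝ) ^ 2 * (K + 1)) * M + 1 := by ring
        _ ≤ (512 * (K : ℝ) ^ 3) * M + M * (K : ℝ) ^ 3 := by
            apply add_le_add _ q4
            exact mul_le_mul_of_nonneg_right q3 (by linarith)
        _ = _ := by ring
    have h6 : (K : ℝ) ^ 3 ≤ (C1 * (X : ℝ) ^ η) ^ 3 := pow_le_pow_left₀ (by linarith) hKX 3
    calc _ ≤ 513 * M * (K : ℝ) ^ 3 := h5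
      _ ≤ 513 * M * (C1 * (X : ℝ) ^ η) ^ 3 := mul_le_mul_of_nonneg_left h6 (by positivity)
      _ = _ := by ring
  have hXε : (X : ℝ) ^ ε = (X : ℝ) ^ η * (X : ℝ) ^ η * ((X : ℝ) ^ η) ^ 3 := by
    rw [← Real.rpow_natCast ((X : ℝ) ^ η) 3, ← Real.rpow_mul hX0.le, ← Real.rpow_add hX0,
      ← Real.rpow_add hX0]
    congr 1
    rw [hη]
    push_cast
    ring
  have hXε1 : 1 ≤ (X : ℝ) ^ ε := Real.one_le_rpow hXR hε.le
  have h5 : z * ((a * (C2 * (X : ℝ) ^ η)) * (A1 * (C3 * (X : ℝ) ^ η)) *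
        ((16 * K) ^ 2 * ((K + 1) * M) + 1)) ≤
      (a * C2 * A1 * C3 * (513 * M * C1 ^ 3)) * z * (X : ℝ) ^ ε := by
    calc _ = (a * C2 * A1 * C3) * z * ((X : ℝ) ^ η * (X : ℝ) ^ η) *
          ((16 * K : ℝ) ^ 2 * ((K + 1) * M) + 1) := by ring
      _ ≤ (a * C2 * A1 * C3) * z * ((X : ℝ) ^ η * (X : ℝ) ^ η) *
          (513 * M * C1 ^ 3 * ((X : ℝ) ^ η) ^ 3) := mul_le_mul_of_nonneg_left hKpow (by positivity)
      _ = _ := by rw [hXε]; ring
  have h6 : (k : ℝ) * (Z + 1) ≤ 2 * k * z * (X : ℝ) ^ ε := by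
    have h7 : (Z : ℝ) + 1 ≤ 2 * z := by linarith
    calc (k : ℝ) * (Z + 1) ≤ k * (2 * z) := mul_le_mul_of_nonneg_left h7 (by linarith)
      _ ≤ k * (2 * z) * (X : ℝ) ^ ε := le_mul_of_one_le_right (by positivity) hXε1
      _ = _ := by ring
  calc (A.card : ℝ) ≤ 2 * k * z * (X : ℝ) ^ ε +
        (a * C2 * A1 * C3 * (513 * M * C1 ^ 3)) * z * (X : ℝ) ^ ε := h4.trans (add_le_add h6 h5)
    _ = _ := by ring

end Pool.Agent.NH3.LT
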