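import Mathlib

set_option autoImplicit false

/-!
# The radical of an integer polynomial with bounded multiplicities
-/

namespace Pool.Agent.NH3.LT

open Polynomial

theorem clear (P : ℚ[X]) : ∃ N : ℤ, N ≠ 0 ∧ ∃ Q : ℤ[X],
    Q.map (Int.castRingHom ℚ) = C (N : ℚ) * P := by
  induction P using Polynomial.induction_on' with
  | add p q hp hq =>
    obtain ⟨N1, h1, Q1, e1⟩ := hp
    obtain ⟨N2, h2, Q2, e2⟩ := hq
    refine ⟨N1 * N2, mul_ne_zero h1 h2, C N2 * Q1 + C N1 * Q2, ?_⟩
    rw [Polynomial.map_add, Polynomial.map_mul, Polynomial.map_mul, e1, e2, map_C, map_C]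
    simp only [eq_intCast, Int.cast_mul, C_mul]
    ring
  | monomial n a =>
    refine ⟨a.den, by exact_mod_cast a.den_ne_zero, monomial n a.num, ?_⟩
    rw [map_monomial, C_mul_monomial]
    congr 1
    simp only [eq_intCast, Int.cast_natCast]
    rw [mul_comm]
    exact (Rat.mul_den_eq_num a).symm

theorem mult_of_pow {p g : ℚ[X]} (hirr : Irreducible p) (hg : g ≠ 0) {e : ℕ}
    (h3 : p ^ (e + 1) ∣ g) : ∃ z : ℂ, e + 1 ≤ (g.map (algebraMap ℚ ℂ)).rootMultiplicity z := by
  have hdeg : (p.map (algebraMap ℚ ℂ)).degree ≠ 0 := by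
    rw [degree_map]
    exact (degree_pos_of_irreducible hirr).ne'
  obtain ⟨z, hz⟩ := IsAlgClosed.exists_root (p.map (algebraMap ℚ ℂ)) hdeg
  refine ⟨z, ?_⟩
  have hg0 : g.map (algebraMap ℚ ℂ) ≠ 0 :=
    (Polynomial.map_ne_zero_iff (algebraMap ℚ ℂ).injective).2 hg
  rw [le_rootMultiplicity_iff hg0]
  have h5 : (p.map (algebraMap ℚ ℂ)) ^ (e + 1) ∣ g.map (algebraMap ℚ ℂ) := by
    have h6 := Polynomial.map_dvd (algebraMap ℚ ℂ) h3
    rwa [Polynomial.map_pow] at h6
  exact (pow_dvd_pow_of_dvd (dvd_iff_isRoot.2 hz) _).trans h5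

/-- a polynomial over `ℚ` whose complex roots have multiplicity at most `e` divides the `e`-th
power of its radical -/
theorem dvd_rad_pow (g : ℚ[X]) (hg : g ≠ 0) (e : ℕ)
    (hm : ∀ z : ℂ, (g.map (algebraMap ℚ ℂ)).rootMultiplicity z ≤ e) :
    g ∣ UniqueFactorizationMonoid.radical g ^ e := by
  classical
  have hr0 : UniqueFactorizationMonoid.radical g ≠ 0 := UniqueFactorizationMonoid.radical_ne_zero
  rw [UniqueFactorizationMonoid.dvd_iff_normalizedFactors_le_normalizedFactors hg
    (pow_ne_zero _ hr0), UniqueFactorizationMonoid.normalizedFactors_pow, Multiset.le_iff_count]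
  intro p
  rw [Multiset.count_nsmul]
  by_cases hp : p ∈ UniqueFactorizationMonoid.normalizedFactors g
  · have hirr := UniqueFactorizationMonoid.irreducible_of_normalized_factor p hp
    have hpd := UniqueFactorizationMonoid.dvd_of_mem_normalizedFactors hp
    have h1 : 1 ≤ Multiset.count p (UniqueFactorizationMonoid.normalizedFactors
        (UniqueFactorizationMonoid.radical g)) := by
      rw [Multiset.one_le_count_iff_mem,
        UniqueFactorizationMonoid.mem_normalizedFactors_iff' hr0]
      refine ⟨hirr, ?_, ?_⟩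
      · exact UniqueFactorizationMonoid.normalize_normalized_factor p hp
      · exact (UniqueFactorizationMonoid.dvd_radical_iff_of_irreducible hirr hg).2 hpd
    have h2 : Multiset.count p (UniqueFactorizationMonoid.normalizedFactors g) ≤ e := by
      by_contra hlt
      rw [not_le] at hlt
      have h3 : p ^ (e + 1) ∣ g := by
        rw [UniqueFactorizationMonoid.dvd_iff_normalizedFactors_le_normalizedFactors
          (pow_ne_zero _ hirr.ne_zero) hg, UniqueFactorizationMonoid.normalizedFactors_pow,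
          UniqueFactorizationMonoid.normalizedFactors_irreducible hirr,
          UniqueFactorizationMonoid.normalize_normalized_factor p hp]
        rw [Multiset.le_iff_count]
        intro q
        rw [Multiset.count_nsmul, Multiset.count_singleton]
        split_ifs with h
        · subst h
          omega
        · omega
      obtain ⟨z, hz⟩ := mult_of_pow hirr hg h3
      have := hm z
      omega
    calc Multiset.count p (UniqueFactorizationMonoid.normalizedFactors g) ≤ e * 1 := by omega
      _ ≤ _ := Nat.mul_le_mul_left _ h1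
  · rw [Multiset.count_eq_zero_of_notMem hp]
    exact Nat.zero_le _

/-- the data for the counting theorem -/
theorem exists_rad (g : ℤ[X]) (hg : g ≠ 0) (e : ℕ)
    (hm : ∀ z : ℂ, (g.map (Int.castRingHom ℂ)).rootMultiplicity z ≤ e) :
    ∃ (h t u w : ℤ[X]) (c R : ℤ), c ≠ 0 ∧ R ≠ 0 ∧ C c * h ^ e = g * t ∧
      u * h + w * derivative h = C R := by
  classical
  have hinj : Function.Injective (Polynomial.map (Int.castRingHom ℚ)) :=
    Polynomial.map_injective _ Int.cast_injective
  set G : ℚ[X] := g.map (Int.castRingHom ℚ) with hG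
  have hG0 : G ≠ 0 := by
    intro h0
    apply hg
    apply hinj
    rw [← hG, h0, Polynomial.map_zero]
  have hmap : G.map (algebraMap ℚ ℂ) = g.map (Int.castRingHom ℂ) := by
    rw [hG, Polynomial.map_map]
    congr 1
  have hd := dvd_rad_pow G hG0 e (by rw [hmap]; exact hm)
  set r := UniqueFactorizationMonoid.radical G with hr
  have hsep : r.Separable := PerfectField.separable_iff_squarefree.2
    UniqueFactorizationMonoid.squarefree_radical
  obtain ⟨N1, hN1, h, hh⟩ := clear r
  have hN1Q : (N1 : ℚ) ≠ 0 := by exact_mod_cast hN1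
  obtain ⟨a, b, hab⟩ := hsep
  -- over ℚ
  have hab2 : a * h.map (Int.castRingHom ℚ) + b * (derivative h).map (Int.castRingHom ℚ) =
      C (N1 : ℚ) := by
    rw [← derivative_map, hh, derivative_C_mul]
    calc a * (C (N1 : ℚ) * r) + b * (C (N1 : ℚ) * derivative r) =
        C (N1 : ℚ) * (a * r + b * derivative r) := by ring
      _ = C (N1 : ℚ) := by rw [hab, mul_one]
  obtain ⟨N2, hN2, u, hu⟩ := clear a
  obtain ⟨N3, hN3, w, hw⟩ := clear b
  obtain ⟨T, hT⟩ := hd
  obtain ⟨N4, hN4, t, ht⟩ := clear (C ((N1 : ℚ) ^ e) * T)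
  refine ⟨h, t, C N3 * u, C N2 * w, N4, N2 * N3 * N1, hN4, mul_ne_zero (mul_ne_zero hN2 hN3) hN1,
    ?_, ?_⟩
  · apply hinj
    rw [Polynomial.map_mul, Polynomial.map_mul, Polynomial.map_pow, ht, hh, map_C, ← hG, mul_pow,
      ← C_pow, hT]
    simp only [eq_intCast]
    ring
  · apply hinj
    rw [Polynomial.map_add, Polynomial.map_mul, Polynomial.map_mul, Polynomial.map_mul,
      Polynomial.map_mul, hu, hw, map_C, map_C, map_C]
    simp only [eq_intCast, Int.cast_mul, C_mul]
    calc C (N3 : ℚ) * (C (N2 : ℚ) * a) * h.map (Int.castRingHom ℚ) +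
          C (N2 : ℚ) * (C (N3 : ℚ) * b) * (derivative h).map (Int.castRingHom ℚ) =
        C (N2 : ℚ) * C (N3 : ℚ) * (a * h.map (Int.castRingHom ℚ) +
          b * (derivative h).map (Int.castRingHom ℚ)) := by ring
      _ = _ := by rw [hab2]

end Pool.Agent.NH3.LT
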