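import Pool.Agent.Helper403.Sieve
import Pool.Agent.Helper923.HMertens

set_option autoImplicit false

/-!
# Rankin's trick for the denominator of the sieve
-/

namespace Pool.Agent.NH3.LT

open Finset

/-- Rankin's trick for sums over subsets -/
theorem rankin (P : Finset ℕ) (g : ℕ → ℝ) (hg : ∀ p ∈ P, 0 ≤ g p) (hP : ∀ p ∈ P, 0 < p)
    (s z : ℝ) (hs : 0 ≤ s) (hz : 0 < z) :
    ∏ p ∈ P, (1 + g p) - z ^ (-s) * ∏ p ∈ P, (1 + (p : ℝ) ^ s * g p) ≤
      ∑ t ∈ P.powerset.filter (fun t => ((∏ p ∈ t, p : ℕ) : ℝ) ≤ z), ∏ p ∈ t, g p := by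
  classical
  have h1 : ∏ p ∈ P, (1 + g p) = ∑ t ∈ P.powerset, ∏ p ∈ t, g p := Finset.prod_one_add P
  have h2 : ∏ p ∈ P, (1 + (p : ℝ) ^ s * g p) = ∑ t ∈ P.powerset, ∏ p ∈ t, ((p : ℝ) ^ s * g p) :=
    Finset.prod_one_add P
  have h3 := Finset.sum_filter_add_sum_filter_not P.powerset
    (fun t => ((∏ p ∈ t, p : ℕ) : ℝ) ≤ z) (fun t => ∏ p ∈ t, g p)
  have h4 : ∑ t ∈ P.powerset.filter (fun t => ¬ ((∏ p ∈ t, p : ℕ) : ℝ) ≤ z), ∏ p ∈ t, g p ≤
      z ^ (-s) * ∑ t ∈ P.powerset, ∏ p ∈ t, ((p : ℝ) ^ s * g p) := by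
    rw [Finset.mul_sum]
    refine (Finset.sum_le_sum (g := fun t : Finset ℕ => z ^ (-s) * ∏ p ∈ t, ((p : ℝ) ^ s * g p)) ?_).trans
      (Finset.sum_le_sum_of_subset_of_nonneg (Finset.filter_subset _ _) ?_)
    · intro t ht
      rw [mem_filter, mem_powerset, not_le] at ht
      have h5 : 0 ≤ ∏ p ∈ t, g p := prod_nonneg fun p hp => hg p (ht.1 hp)
      have h6 : ∏ p ∈ t, ((p : ℝ) ^ s * g p) = ((∏ p ∈ t, p : ℕ) : ℝ) ^ s * ∏ p ∈ t, g p := by
        rw [prod_mul_distrib]
        congr 1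
        rw [Nat.cast_prod]
        exact Real.finsetProd_rpow t (fun p : ℕ => (p : ℝ)) (fun p _ => Nat.cast_nonneg p) s
      rw [h6, ← mul_assoc]
      have h7 : 1 ≤ z ^ (-s) * ((∏ p ∈ t, p : ℕ) : ℝ) ^ s := by
        rw [Real.rpow_neg hz.le, inv_mul_eq_div, one_le_div (by positivity)]
        exact Real.rpow_le_rpow hz.le ht.2.le hs
      nlinarith
    · intro t ht _
      rw [mem_powerset] at ht
      apply mul_nonneg (by positivity)
      exact prod_nonneg fun p hp => mul_nonneg (by positivity) (hg p (ht hp))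
  rw [h1, h2]
  linarith

/-- the primes up to `w` -/
def PP (w : ℕ) : Finset ℕ := (Finset.Icc 1 w).filter Nat.Prime

theorem mem_PP {w p : ℕ} : p ∈ PP w ↔ p ≤ w ∧ p.Prime := by
  unfold PP
  rw [mem_filter, mem_Icc]
  exact ⟨fun h => ⟨h.1.2, h.2⟩, fun h => ⟨⟨h.2.one_le, h.1⟩, h.2⟩⟩

/-- lower bound for the denominator of the sieve -/
theorem G_lower : ∃ A : ℝ, 1 ≤ A ∧ ∀ (w z : ℕ) (ν : ℕ → ℝ), 2 ≤ w → A * Real.log w ≤ Real.log z →
    (∀ p, p.Prime → 0 ≤ ν p ∧ ν p ≤ 2 ∧ ν p < p) →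
    1 / 2 * ∏ p ∈ PP w, (1 - ν p / p)⁻¹ ≤
      ∑ t ∈ (PP w).powerset.filter (fun t => (∏ p ∈ t, p) ≤ z), ∏ p ∈ t, (ν p / (p - ν p)) := by
  obtain ⟨C0, hC0⟩ := Pool.Agent.Helper923.HMertens.mertens_log
  refine ⟨5 + 8 * |C0|, by have := abs_nonneg C0; linarith, ?_⟩
  intro w z ν hw hz hν
  have hw2 : (2 : ℝ) ≤ w := by exact_mod_cast hw
  have hlw : 0 < Real.log w := Real.log_pos (by linarith)
  have hlw2 : 1 / 2 ≤ Real.log w := by
    have h1 := Real.log_two_gt_d9
    have h2 : Real.log 2 ≤ Real.log w := Real.log_le_log (by norm_num) hw2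
    linarith
  have hz0 : 0 < z := by
    rcases Nat.eq_zero_or_pos z with h | h
    · exfalso
      rw [h] at hz
      simp only [Nat.cast_zero, Real.log_zero] at hz
      have := abs_nonneg C0
      have : 0 < (5 + 8 * |C0|) * Real.log w := by positivity
      linarith
    · exact h
  have hzR : (0 : ℝ) < z := by exact_mod_cast hz0
  set s : ℝ := 1 / Real.log w with hs
  have hs0 : 0 ≤ s := by positivity
  have hpr : ∀ p ∈ PP w, (2 : ℝ) ≤ p ∧ 0 ≤ ν p ∧ ν p ≤ 2 ∧ ν p < p := by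
    intro p hp
    rw [mem_PP] at hp
    exact ⟨by exact_mod_cast hp.2.two_le, hν p hp.2⟩
  have h := rankin (PP w) (fun p => ν p / (p - ν p))
    (fun p hp => by
      obtain ⟨h1, h2, h3, h4⟩ := hpr p hp
      exact div_nonneg h2 (by linarith))
    (fun p hp => (mem_PP.1 hp).2.pos) s z hs0 hzR
  have e1 : ∏ p ∈ PP w, (1 + ν p / (p - ν p)) = ∏ p ∈ PP w, (1 - ν p / p)⁻¹ := by
    apply prod_congr rfl
    intro p hp
    obtain ⟨h1, h2, h3, h4⟩ := hpr p hp
    have h5 : (p : ℝ) - ν p ≠ 0 := by linarith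
    have h6 : (p : ℝ) ≠ 0 := by linarith
    field_simp
    ring
  have e2 : ∑ t ∈ (PP w).powerset.filter (fun t => ((∏ p ∈ t, p : ℕ) : ℝ) ≤ z),
      ∏ p ∈ t, (ν p / (p - ν p)) =
      ∑ t ∈ (PP w).powerset.filter (fun t => (∏ p ∈ t, p) ≤ z), ∏ p ∈ t, (ν p / (p - ν p)) := by
    apply sum_congr _ (fun _ _ => rfl)
    apply filter_congr
    intro t _
    exact Nat.cast_le
  have hsum : ∑ p ∈ PP w, Real.log p / p ≤ Real.log w + |C0| := by
    have h1 := (abs_le.1 (hC0 w (by omega))).2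
    have := le_abs_self C0
    unfold PP
    linarith
  have hsum0 : 0 ≤ ∑ p ∈ PP w, Real.log p / p := by
    apply sum_nonneg
    intro p _
    exact div_nonneg (Real.log_natCast_nonneg p) (Nat.cast_nonneg p)
  have e3 : ∏ p ∈ PP w, (1 + (p : ℝ) ^ s * (ν p / (p - ν p))) ≤
      (∏ p ∈ PP w, (1 - ν p / p)⁻¹) * Real.exp (4 + 8 * |C0|) := by
    have h1 : ∏ p ∈ PP w, (1 + (p : ℝ) ^ s * (ν p / (p - ν p))) ≤
        ∏ p ∈ PP w, ((1 - ν p / p)⁻¹ * Real.exp (4 / Real.log w * (Real.log p / p))) := by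
      apply prod_le_prod
      · intro p hp
        obtain ⟨h1, h2, h3, h4⟩ := hpr p hp
        have : 0 ≤ ν p / (p - ν p) := div_nonneg h2 (by linarith)
        positivity
      · intro p hp
        obtain ⟨h1, h2, h3, h4⟩ := hpr p hp
        have hp0 : (0 : ℝ) < p := by linarith
        have hlp : 0 ≤ Real.log p := Real.log_nonneg (by linarith)
        have hlpw : Real.log p ≤ Real.log w :=
          Real.log_le_log hp0 (by exact_mod_cast (mem_PP.1 hp).1)
        set t := Real.log p / Real.log w with ht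
        have ht0 : 0 ≤ t := by positivity
        have ht1 : t ≤ 1 := by rw [ht, div_le_one hlw]; exact hlpw
        have e4 : (p : ℝ) ^ s = Real.exp t := by
          rw [Real.rpow_def_of_pos hp0, ht, hs]
          congr 1
          field_simp
        have h5 : Real.exp t - 1 ≤ 2 * t := by
          have hc := convexOn_exp.2 (Set.mem_univ (1 : ℝ)) (Set.mem_univ (0 : ℝ)) ht0
            (by linarith : 0 ≤ 1 - t) (by ring)
          simp only [smul_eq_mul, mul_zero, add_zero, Real.exp_zero, mul_one] at hc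
          have := Real.exp_one_lt_d9
          nlinarith
        have hne : (p : ℝ) - ν p ≠ 0 := by linarith
        have h6 : 1 + (p : ℝ) ^ s * (ν p / (p - ν p)) =
            (1 - ν p / p)⁻¹ * (1 + ν p / p * (Real.exp t - 1)) := by
          rw [e4]
          have : (p : ℝ) ≠ 0 := hp0.ne'
          field_simp
          ring
        rw [h6]
        have h7 : 0 ≤ (1 - ν p / p)⁻¹ := by
          apply inv_nonneg.2
          have : ν p / p ≤ 1 := by rw [div_le_one hp0]; exact h4.le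
          linarith
        apply mul_le_mul_of_nonneg_left _ h7
        have h8 : 0 ≤ Real.exp t - 1 := by
          have := Real.add_one_le_exp t
          linarith
        calc 1 + ν p / p * (Real.exp t - 1) ≤ 1 + 2 / p * (2 * t) := by
              have h9 : ν p / p ≤ 2 / p := by gcongr
              have h10 : ν p / p * (Real.exp t - 1) ≤ 2 / p * (2 * t) :=
                mul_le_mul h9 h5 h8 (by positivity)
              linarith
          _ = 4 / Real.log w * (Real.log p / p) + 1 := by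
              rw [ht]
              field_simp
              ring
          _ ≤ _ := Real.add_one_le_exp _
    refine h1.trans ?_
    rw [prod_mul_distrib, ← Real.exp_sum, ← mul_sum]
    apply mul_le_mul_of_nonneg_left
    · apply Real.exp_le_exp.2
      calc 4 / Real.log w * ∑ p ∈ PP w, Real.log p / p ≤ 4 / Real.log w * (Real.log w + |C0|) :=
            mul_le_mul_of_nonneg_left hsum (by positivity)
        _ = 4 + 4 * |C0| / Real.log w := by field_simp
        _ ≤ 4 + 8 * |C0| := by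
            have : 4 * |C0| / Real.log w ≤ 8 * |C0| := by
              rw [div_le_iff₀ hlw]
              nlinarith [abs_nonneg C0]
            linarith
    · apply prod_nonneg
      intro p hp
      obtain ⟨h1, h2, h3, h4⟩ := hpr p hp
      apply inv_nonneg.2
      have : ν p / p ≤ 1 := by rw [div_le_one (by linarith)]; exact h4.le
      linarith
  have hzs : (z : ℝ) ^ (-s) ≤ Real.exp (-(5 + 8 * |C0|)) := by
    rw [Real.rpow_def_of_pos hzR]
    apply Real.exp_le_exp.2
    have : 5 + 8 * |C0| ≤ Real.log z * s := by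
      rw [hs, mul_one_div, le_div_iff₀ hlw]
      exact hz
    linarith
  have hPi : 0 ≤ ∏ p ∈ PP w, (1 - ν p / p)⁻¹ := by
    apply prod_nonneg
    intro p hp
    obtain ⟨h1, h2, h3, h4⟩ := hpr p hp
    apply inv_nonneg.2
    have : ν p / p ≤ 1 := by rw [div_le_one (by linarith)]; exact h4.le
    linarith
  rw [e1, e2] at h
  refine le_trans ?_ h
  have h10 : (z : ℝ) ^ (-s) * ∏ p ∈ PP w, (1 + (p : ℝ) ^ s * (ν p / (p - ν p))) ≤
      1 / 2 * ∏ p ∈ PP w, (1 - ν p / p)⁻¹ := by
    calc (z : ℝ) ^ (-s) * ∏ p ∈ PP w, (1 + (p : ℝ) ^ s * (ν p / (p - ν p))) ≤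
        Real.exp (-(5 + 8 * |C0|)) * ((∏ p ∈ PP w, (1 - ν p / p)⁻¹) * Real.exp (4 + 8 * |C0|)) := by
          apply mul_le_mul hzs e3 _ (Real.exp_pos _).le
          apply prod_nonneg
          intro p hp
          obtain ⟨h1, h2, h3, h4⟩ := hpr p hp
          have : 0 ≤ ν p / (p - ν p) := div_nonneg h2 (by linarith)
          positivity
      _ = (Real.exp (-(5 + 8 * |C0|)) * Real.exp (4 + 8 * |C0|)) * ∏ p ∈ PP w, (1 - ν p / p)⁻¹ := by
          ring
      _ = Real.exp (-1) * ∏ p ∈ PP w, (1 - ν p / p)⁻¹ := by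
          rw [← Real.exp_add]
          congr 2
          ring
      _ ≤ _ := by
          apply mul_le_mul_of_nonneg_right _ hPi
          have h11 : Real.exp (-1) < 0.3678794412 := Real.exp_neg_one_lt_d9
          linarith
  linarith

end Pool.Agent.NH3.LT
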