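import Pool.Agent.NH3.LT.Dn

set_option autoImplicit false

/-!
# Lehmer numbers whose prime factors lie in a given set
-/

namespace Pool.Agent.NH3.LT

open Finset Pool.Agent.H95R2.Leh

open Classical in
/-- primes of `P` up to `Z` -/
noncomputable def PZ (P : Set ℕ) (Z : ℕ) : Finset ℕ := (Icc 1 Z).filter (fun p => p.Prime ∧ p ∈ P)

open Classical in
/-- squarefree integers up to `Z` composed of primes of `P` -/
noncomputable def DZ (P : Set ℕ) (Z : ℕ) : Finset ℕ :=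
  (Icc 1 Z).filter (fun d => Squarefree d ∧ ∀ p, p.Prime → p ∣ d → p ∈ P)

theorem mem_PZ {P : Set ℕ} {Z p : ℕ} : p ∈ PZ P Z ↔ (1 ≤ p ∧ p ≤ Z) ∧ p.Prime ∧ p ∈ P := by
  classical
  unfold PZ
  rw [mem_filter, mem_Icc]

theorem mem_DZ {P : Set ℕ} {Z d : ℕ} : d ∈ DZ P Z ↔ (1 ≤ d ∧ d ≤ Z) ∧ Squarefree d ∧
    ∀ p, p.Prime → p ∣ d → p ∈ P := by
  classical
  unfold DZ
  rw [mem_filter, mem_Icc]

/-- Rankin's bound -/
theorem sum_DZ (P : Set ℕ) (Z : ℕ) (σ : ℝ) :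
    ∑ d ∈ DZ P Z, (d : ℝ) ^ (-σ) ≤ ∏ p ∈ PZ P Z, (1 + (p : ℝ) ^ (-σ)) := by
  classical
  rw [Finset.prod_one_add]
  have h1 : ∀ d ∈ DZ P Z, (d : ℝ) ^ (-σ) = ∏ p ∈ d.primeFactors, (p : ℝ) ^ (-σ) := by
    intro d hd
    rw [mem_DZ] at hd
    rw [Real.finsetProd_rpow _ _ (fun _ _ => Nat.cast_nonneg _)]
    congr 1
    rw [← Nat.cast_prod, Nat.prod_primeFactors_of_squarefree hd.2.1]
  rw [sum_congr rfl h1]
  have hinj : Set.InjOn Nat.primeFactors (DZ P Z : Set ℕ) := by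
    intro d hd d' hd' h
    rw [mem_coe, mem_DZ] at hd hd'
    rw [← Nat.prod_primeFactors_of_squarefree hd.2.1, ← Nat.prod_primeFactors_of_squarefree hd'.2.1, h]
  rw [← sum_image (g := Nat.primeFactors) (f := fun t : Finset ℕ => ∏ p ∈ t, (p : ℝ) ^ (-σ)) hinj]
  apply sum_le_sum_of_subset_of_nonneg
  · intro t ht
    rw [mem_image] at ht
    obtain ⟨d, hd, rfl⟩ := ht
    rw [mem_DZ] at hd
    rw [mem_powerset]
    intro p hp
    have hpp := Nat.prime_of_mem_primeFactors hp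
    have hpd := Nat.dvd_of_mem_primeFactors hp
    rw [mem_PZ]
    exact ⟨⟨hpp.one_le, (Nat.le_of_dvd hd.1.1 hpd).trans hd.1.2⟩, hpp, hd.2.2 p hpp hpd⟩
  · intro t _ _
    exact prod_nonneg fun p _ => by positivity

open Classical in
/-- **Lehmer numbers whose prime factors lie in a given set.** -/
theorem prime_set (P : Set ℕ) (σ : ℝ) (hσ0 : 0 ≤ σ) (hσ2 : σ ≤ 2) (x y K : ℕ) (hy : 1 ≤ y)
    (hK : 1 ≤ K) : (((Ioc x (x + y)).filter (fun n => Leh n ∧ (∀ p, p.Prime → p ∣ n → p ∈ P) ∧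
      n.primeFactors.card ≤ K)).card : ℝ) ≤
      514 * ((y : ℝ) * (K : ℝ) ^ 3) ^ (σ / 2) *
        ∏ p ∈ PZ P ⌊Real.sqrt ((y : ℝ) * (K : ℝ) ^ 3)⌋₊, (1 + (p : ℝ) ^ (-σ)) := by
  have hyR : (1 : ℝ) ≤ y := by exact_mod_cast hy
  have hKR : (1 : ℝ) ≤ K := by exact_mod_cast hK
  have hK3 : (1 : ℝ) ≤ (K : ℝ) ^ 3 := one_le_pow₀ hKR
  obtain ⟨z, hz⟩ : ∃ z : ℝ, z = Real.sqrt ((y : ℝ) * (K : ℝ) ^ 3) := ⟨_, rfl⟩
  rw [← hz]
  have hz1 : 1 ≤ z := by rw [hz]; exact Real.one_le_sqrt.2 (by nlinarith)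
  have hz0 : 0 < z := by linarith
  have hzz : z ^ 2 = (y : ℝ) * (K : ℝ) ^ 3 := by rw [hz]; exact Real.sq_sqrt (by positivity)
  have hpow : ((y : ℝ) * (K : ℝ) ^ 3) ^ (σ / 2) = z ^ σ := by
    rw [← hzz, ← Real.rpow_natCast z 2, ← Real.rpow_mul hz0.le]
    congr 1
    push_cast
    ring
  rw [hpow]
  obtain ⟨Z, hZ⟩ : ∃ Z : ℕ, Z = ⌊z⌋₊ := ⟨_, rfl⟩
  rw [← hZ]
  have hZz : (Z : ℝ) ≤ z := by rw [hZ]; exact Nat.floor_le hz0.le
  set Q0 : ℝ := ∏ p ∈ PZ P Z, (1 + (p : ℝ) ^ (-σ)) with hQ0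
  have hS := sum_DZ P Z σ
  rw [← hQ0] at hS
  have hQ00 : 0 ≤ Q0 := le_trans (sum_nonneg fun d _ => by positivity) hS
  -- number of elements of DZ
  have hcardD : ((DZ P Z).card : ℝ) ≤ z ^ σ * Q0 := by
    calc ((DZ P Z).card : ℝ) = ∑ _d ∈ DZ P Z, (1 : ℝ) := by rw [sum_const, nsmul_eq_mul, mul_one]
      _ ≤ ∑ d ∈ DZ P Z, z ^ σ * (d : ℝ) ^ (-σ) := by
          apply sum_le_sum
          intro d hd
          rw [mem_DZ] at hd
          have hd0 : (0 : ℝ) < d := by exact_mod_cast hd.1.1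
          have hdz : (d : ℝ) ≤ z := le_trans (by exact_mod_cast hd.1.2) hZz
          rw [Real.rpow_neg hd0.le, ← div_eq_mul_inv, one_le_div (by positivity)]
          exact Real.rpow_le_rpow hd0.le hdz hσ0
      _ = z ^ σ * ∑ d ∈ DZ P Z, (d : ℝ) ^ (-σ) := by rw [mul_sum]
      _ ≤ _ := mul_le_mul_of_nonneg_left hS (by positivity)
  obtain ⟨D, hD⟩ : ∃ D : Finset ℕ, D = (DZ P Z).filter (fun d : ℕ => z / (16 * K) < (d : ℝ) ∧
    d ≤ (K + 1) * d.totient) := ⟨_, rfl⟩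
  have hcov : (Ioc x (x + y)).filter (fun n => Leh n ∧ (∀ p, p.Prime → p ∣ n → p ∈ P) ∧
      n.primeFactors.card ≤ K) ⊆
      DZ P Z ∪ D.biUnion (fun d => (Ioc x (x + y)).filter (fun n => Leh n ∧ d ∣ n)) := by
    intro n hn
    obtain ⟨h1, h2, h3, h4⟩ := mem_filter.1 hn
    rw [mem_union]
    by_cases hnz : n ≤ Z
    · left
      rw [mem_DZ]
      exact ⟨⟨h2.1.le, hnz⟩, (leh_basic h2).1, h3⟩
    · right
      push Not at hnz
      have hzn : z ≤ n := by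
        rw [hZ, Nat.floor_lt hz0.le] at hnz
        exact hnz.le
      obtain ⟨d, hdn, hd1, hd2⟩ := exists_dense h2 hK h4 hz1 hzn
      obtain ⟨e1, e2, e3, e4⟩ := dvd_facts h2 hdn
      rw [mem_biUnion]
      refine ⟨d, ?_, ?_⟩
      · rw [hD, mem_filter, mem_DZ]
        refine ⟨⟨⟨e1, by rw [hZ]; exact Nat.le_floor hd2⟩, e2, fun p hp hpd =>
          h3 p hp (hpd.trans hdn)⟩, hd1, ?_⟩
        refine (le_omega_mul_totient d).trans ?_
        apply Nat.mul_le_mul_right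
        have : d.primeFactors.card ≤ n.primeFactors.card :=
          card_le_card (Nat.primeFactors_mono hdn (by have := h2.1; omega))
        omega
      · rw [mem_filter]
        exact ⟨h1, h2, hdn⟩
  have hterm : ∀ d ∈ D, (((Ioc x (x + y)).filter (fun n => Leh n ∧ d ∣ n)).card : ℝ) ≤
      512 * z ^ σ * (z ^ (-σ) * (z ^ σ * (d : ℝ) ^ (-σ))) + 1 := by
    intro d hd
    rw [hD, mem_filter, mem_DZ] at hd
    obtain ⟨⟨⟨hd1, hd2⟩, -, -⟩, hd3, hd4⟩ := hd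
    refine (Pool.Agent.Y928.LS.multiples_short x y d hd1).trans ?_
    have hd0 : (0 : ℝ) < d := by exact_mod_cast hd1
    have hφ : (0 : ℝ) < d.totient := by exact_mod_cast Nat.totient_pos.2 (by omega)
    have hdφ : (d : ℝ) ≤ (K + 1) * d.totient := by exact_mod_cast hd4
    have h16 : (0 : ℝ) < 16 * K := by linarith
    -- z^2 / (16K)^2 ≤ ...
    have e1 : z ^ (-σ) * (z ^ σ * (d : ℝ) ^ (-σ)) = (d : ℝ) ^ (-σ) := by
      rw [← mul_assoc, ← Real.rpow_add hz0, neg_add_cancel, Real.rpow_zero, one_mul]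
    rw [e1]
    have h5 : (y : ℝ) / (d * d.totient) ≤ 512 * z ^ σ * (d : ℝ) ^ (-σ) := by
      rw [div_le_iff₀ (by positivity)]
      -- y ≤ 512 z^σ d^(-σ) d φ(d)
      have g1 : z ≤ 16 * K * d := by
        rw [div_lt_iff₀ h16] at hd3
        linarith
      have g2 : z ^ (2 - σ) ≤ (16 * K * d) ^ (2 - σ) := Real.rpow_le_rpow hz0.le g1 (by linarith)
      have g3 : (16 * K * d : ℝ) ^ (2 - σ) = (16 * K : ℝ) ^ (2 - σ) * (d : ℝ) ^ (2 - σ) :=
        Real.mul_rpow h16.le hd0.le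
      have g4 : (16 * K : ℝ) ^ (2 - σ) ≤ (16 * K) ^ 2 := by
        rw [← Real.rpow_natCast (16 * K : ℝ) 2]
        apply Real.rpow_le_rpow_of_exponent_le (by linarith)
        push_cast
        linarith
      have g5 : z ^ 2 = z ^ σ * z ^ (2 - σ) := by
        rw [← Real.rpow_add hz0, ← Real.rpow_natCast z 2]
        congr 1
        push_cast
        ring
      have g6 : (d : ℝ) ^ (2 - σ) = (d : ℝ) ^ 2 * (d : ℝ) ^ (-σ) := by
        rw [sub_eq_add_neg, Real.rpow_add hd0, ← Real.rpow_natCast (d : ℝ) 2]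
        push_cast
        rfl
      have g7 : (y : ℝ) * (K : ℝ) ^ 3 ≤ z ^ σ * ((16 * K) ^ 2 * ((d : ℝ) ^ 2 * (d : ℝ) ^ (-σ))) := by
        rw [← hzz, g5]
        apply mul_le_mul_of_nonneg_left _ (by positivity)
        rw [← g6]
        exact g2.trans (by rw [g3]; exact mul_le_mul_of_nonneg_right g4 (by positivity))
      have g8 : (d : ℝ) ^ 2 ≤ 2 * K * (d * d.totient) := by
        have : (d : ℝ) ≤ 2 * K * d.totient := by nlinarith
        nlinarith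
      have g9 : (y : ℝ) * (K : ℝ) ^ 3 ≤
          (512 * z ^ σ * (d : ℝ) ^ (-σ) * (d * d.totient)) * (K : ℝ) ^ 3 := by
        calc (y : ℝ) * (K : ℝ) ^ 3 ≤ z ^ σ * ((16 * K) ^ 2 * ((d : ℝ) ^ 2 * (d : ℝ) ^ (-σ))) := g7
          _ ≤ z ^ σ * ((16 * K) ^ 2 * ((2 * K * (d * d.totient)) * (d : ℝ) ^ (-σ))) := by
              apply mul_le_mul_of_nonneg_left _ (by positivity)
              apply mul_le_mul_of_nonneg_left _ (by positivity)
              exact mul_le_mul_of_nonneg_right g8 (by positivity)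
          _ = _ := by ring
      exact le_of_mul_le_mul_right g9 (by linarith)
    linarith
  have hcard2 : ((D.biUnion (fun d => (Ioc x (x + y)).filter (fun n => Leh n ∧ d ∣ n))).card : ℝ) ≤
      512 * z ^ σ * Q0 + z ^ σ * Q0 := by
    calc ((D.biUnion (fun d => (Ioc x (x + y)).filter (fun n => Leh n ∧ d ∣ n))).card : ℝ) ≤
        ∑ d ∈ D, (((Ioc x (x + y)).filter (fun n => Leh n ∧ d ∣ n)).card : ℝ) := by
          exact_mod_cast card_biUnion_le
      _ ≤ ∑ d ∈ D, (512 * z ^ σ * (z ^ (-σ) * (z ^ σ * (d : ℝ) ^ (-σ))) + 1) := sum_le_sum hterm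
      _ ≤ ∑ d ∈ DZ P Z, (512 * z ^ σ * (z ^ (-σ) * (z ^ σ * (d : ℝ) ^ (-σ))) + 1) := by
          rw [hD]
          apply sum_le_sum_of_subset_of_nonneg (filter_subset _ _)
          intro d _ _
          positivity
      _ = 512 * z ^ σ * ∑ d ∈ DZ P Z, (d : ℝ) ^ (-σ) + (DZ P Z).card := by
          rw [sum_add_distrib, ← mul_sum, sum_const, nsmul_eq_mul, mul_one]
          congr 2
          apply sum_congr rfl
          intro d _
          rw [← mul_assoc, ← Real.rpow_add hz0, neg_add_cancel, Real.rpow_zero, one_mul]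
      _ ≤ _ := add_le_add (mul_le_mul_of_nonneg_left hS (by positivity)) hcardD
  have h1 : (((Ioc x (x + y)).filter (fun n => Leh n ∧ (∀ p, p.Prime → p ∣ n → p ∈ P) ∧
      n.primeFactors.card ≤ K)).card : ℝ) ≤ ((DZ P Z).card : ℝ) +
      ((D.biUnion (fun d => (Ioc x (x + y)).filter (fun n => Leh n ∧ d ∣ n))).card : ℝ) := by
    exact_mod_cast (card_le_card hcov).trans (card_union_le _ _)
  linarith

/-- bound for the number of prime factors -/
theorem omega_X (η : ℝ) (hη : 0 < η) : ∃ C : ℝ, 1 ≤ C ∧ ∀ X : ℕ, 1 ≤ X → ∃ K : ℕ, 1 ≤ K ∧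
    (K : ℝ) ≤ C * (X : ℝ) ^ η ∧ ∀ n : ℕ, 1 ≤ n → n ≤ X → n.primeFactors.card ≤ K := by
  have hl2 : 0 < Real.log 2 := Real.log_pos (by norm_num)
  refine ⟨1 + 1 / (η * Real.log 2), by
    have : 0 < 1 / (η * Real.log 2) := by positivity
    linarith, ?_⟩
  intro X hX
  have hXR : (1 : ℝ) ≤ X := by exact_mod_cast hX
  have hX0 : (0 : ℝ) < X := by linarith
  refine ⟨⌊Real.log X / Real.log 2⌋₊ + 1, by omega, ?_, ?_⟩
  · have h3 : Real.log X ≤ (X : ℝ) ^ η / η := Real.log_le_rpow_div hX0.le hη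
    have h4 : (1 : ℝ) ≤ (X : ℝ) ^ η := Real.one_le_rpow hXR hη.le
    have h5 : ((⌊Real.log X / Real.log 2⌋₊ : ℕ) : ℝ) ≤ Real.log X / Real.log 2 :=
      Nat.floor_le (div_nonneg (Real.log_nonneg hXR) hl2.le)
    have h6 : Real.log X / Real.log 2 ≤ 1 / (η * Real.log 2) * (X : ℝ) ^ η := by
      calc Real.log X / Real.log 2 ≤ ((X : ℝ) ^ η / η) / Real.log 2 :=
            div_le_div_of_nonneg_right h3 hl2.le
        _ = _ := by field_simp
    push_cast
    linarith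
  · intro n hn1 hn
    have h2 := Tot.card_le n hn1
    have hn0 : (0 : ℝ) < n := by exact_mod_cast hn1
    have h3 : Real.log n ≤ Real.log X := Real.log_le_log hn0 (by exact_mod_cast hn)
    have h4 : (n.primeFactors.card : ℝ) ≤ Real.log X / Real.log 2 := by
      rw [le_div_iff₀ hl2]
      linarith
    have h5 : n.primeFactors.card ≤ ⌊Real.log X / Real.log 2⌋₊ := Nat.le_floor h4
    omega

/-- convergence for a sparse set -/
theorem sparse_prod (P : Set ℕ) (θ B δ : ℝ) (hθ : 0 ≤ θ) (hδ : 0 < δ) (hB : 0 ≤ B)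
    (hP : ∀ t : ℕ, 1 ≤ t → ((PZ P t).card : ℝ) ≤ B * (t : ℝ) ^ θ) :
    ∃ C : ℝ, 1 ≤ C ∧ ∀ Z : ℕ, ∏ p ∈ PZ P Z, (1 + (p : ℝ) ^ (-(θ + δ))) ≤ C := by
  classical
  obtain ⟨q, hq⟩ : ∃ q : ℝ, q = (2 : ℝ) ^ (-δ) := ⟨_, rfl⟩
  have hq0 : 0 < q := by rw [hq]; positivity
  have hq1 : q < 1 := by
    rw [hq]
    exact Real.rpow_lt_one_of_one_lt_of_neg (by norm_num) (by linarith)
  refine ⟨Real.exp (B * (2 : ℝ) ^ θ * (1 - q)⁻¹), Real.one_le_exp (by
    have : 0 < (1 - q)⁻¹ := inv_pos.2 (by linarith)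
    positivity), ?_⟩
  intro Z
  have h1 : ∏ p ∈ PZ P Z, (1 + (p : ℝ) ^ (-(θ + δ))) ≤
      Real.exp (∑ p ∈ PZ P Z, (p : ℝ) ^ (-(θ + δ))) := by
    rw [Real.exp_sum]
    apply prod_le_prod
    · intro p _
      positivity
    · intro p _
      rw [add_comm]
      exact Real.add_one_le_exp _
  refine h1.trans (Real.exp_le_exp.2 ?_)
  -- dyadic decomposition
  have hmaps : ∀ p ∈ PZ P Z, Nat.log 2 p ∈ range (Z + 1) := by
    intro p hp
    rw [mem_PZ] at hp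
    rw [mem_range]
    have := Nat.log_le_self 2 p
    omega
  rw [← sum_fiberwise_of_maps_to hmaps]
  have hterm : ∀ j ∈ range (Z + 1),
      ∑ p ∈ (PZ P Z).filter (fun p => Nat.log 2 p = j), (p : ℝ) ^ (-(θ + δ)) ≤
      (B * (2 : ℝ) ^ θ) * q ^ j := by
    intro j _
    have h2 : ∀ p ∈ (PZ P Z).filter (fun p => Nat.log 2 p = j), (p : ℝ) ^ (-(θ + δ)) ≤
        ((2 : ℝ) ^ j) ^ (-(θ + δ)) := by
      intro p hp
      rw [mem_filter, mem_PZ] at hp
      have hp1 : p ≠ 0 := by omega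
      have h3 : 2 ^ j ≤ p := by
        rw [← hp.2]
        exact Nat.pow_log_le_self 2 hp1
      have h4 : ((2 : ℝ) ^ j) ≤ p := by exact_mod_cast h3
      exact Real.rpow_le_rpow_of_nonpos (by positivity) h4 (by linarith)
    have h3 : (((PZ P Z).filter (fun p => Nat.log 2 p = j)).card : ℝ) ≤
        B * ((2 : ℝ) ^ (j + 1)) ^ θ := by
      have h4 : (PZ P Z).filter (fun p => Nat.log 2 p = j) ⊆ PZ P (2 ^ (j + 1)) := by
        intro p hp
        rw [mem_filter, mem_PZ] at hp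
        rw [mem_PZ]
        refine ⟨⟨hp.1.1.1, ?_⟩, hp.1.2⟩
        have h5 := Nat.lt_pow_succ_log_self (b := 2) (by norm_num) p
        rw [hp.2] at h5
        exact h5.le
      have h5 := hP (2 ^ (j + 1)) Nat.one_le_two_pow
      push_cast at h5
      refine le_trans ?_ h5
      exact_mod_cast card_le_card h4
    calc ∑ p ∈ (PZ P Z).filter (fun p => Nat.log 2 p = j), (p : ℝ) ^ (-(θ + δ)) ≤
        ∑ _p ∈ (PZ P Z).filter (fun p => Nat.log 2 p = j), ((2 : ℝ) ^ j) ^ (-(θ + δ)) :=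
          sum_le_sum h2
      _ = ((PZ P Z).filter (fun p => Nat.log 2 p = j)).card * ((2 : ℝ) ^ j) ^ (-(θ + δ)) := by
          rw [sum_const, nsmul_eq_mul]
      _ ≤ (B * ((2 : ℝ) ^ (j + 1)) ^ θ) * ((2 : ℝ) ^ j) ^ (-(θ + δ)) :=
          mul_le_mul_of_nonneg_right h3 (by positivity)
      _ = (B * (2 : ℝ) ^ θ) * q ^ j := by
          rw [hq, ← Real.rpow_natCast 2 (j + 1), ← Real.rpow_natCast 2 j,
            ← Real.rpow_natCast ((2 : ℝ) ^ (-δ)) j, ← Real.rpow_mul (by norm_num),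
            ← Real.rpow_mul (by norm_num), ← Real.rpow_mul (by norm_num), mul_assoc, mul_assoc,
            ← Real.rpow_add (by norm_num), ← Real.rpow_add (by norm_num)]
          congr 2
          push_cast
          ring
  refine (sum_le_sum hterm).trans ?_
  rw [← mul_sum]
  apply mul_le_mul_of_nonneg_left _ (by positivity)
  rw [← tsum_geometric_of_lt_one hq0.le hq1]
  exact (summable_geometric_of_lt_one hq0.le hq1).sum_le_tsum _ (fun _ _ => by positivity)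

end Pool.Agent.NH3.LT
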