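import Pool.Agent.NH3.LT.SP

set_option autoImplicit false

/-!
# Sparse sets of primes, and primes up to a power of the logarithm
-/

namespace Pool.Agent.NH3.LT

open Finset Pool.Agent.H95R2.Leh

open Classical in
/-- the bound without the number of prime factors -/
theorem prime_set_X (η : ℝ) (hη : 0 < η) : ∃ C : ℝ, 1 ≤ C ∧ ∀ (P : Set ℕ) (σ : ℝ), 0 ≤ σ → σ ≤ 2 →
    ∀ x y : ℕ, 1 ≤ y → ∃ Z : ℕ,
      (((Ioc x (x + y)).filter (fun n => Leh n ∧ ∀ p, p.Prime → p ∣ n → p ∈ P)).card : ℝ) ≤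
      C * (y : ℝ) ^ (σ / 2) * ((x : ℝ) + y) ^ η * ∏ p ∈ PZ P Z, (1 + (p : ℝ) ^ (-σ)) := by
  obtain ⟨C1, hC1, hom⟩ := omega_X (η / 3) (by positivity)
  refine ⟨514 * C1 ^ 3, by have : 1 ≤ C1 ^ 3 := one_le_pow₀ hC1; linarith, ?_⟩
  intro P σ hσ0 hσ2 x y hy
  obtain ⟨X, hX⟩ : ∃ X : ℕ, X = x + y := ⟨_, rfl⟩
  have hX1 : 1 ≤ X := by omega
  have hXR : (1 : ℝ) ≤ X := by exact_mod_cast hX1
  have hX0 : (0 : ℝ) < X := by linarith
  have hXe : (x : ℝ) + y = X := by rw [hX]; push_cast; ring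
  have hyR : (1 : ℝ) ≤ y := by exact_mod_cast hy
  obtain ⟨K, hK1, hKX, hKω⟩ := hom X hX1
  have hKR : (1 : ℝ) ≤ K := by exact_mod_cast hK1
  have hK3 : (1 : ℝ) ≤ (K : ℝ) ^ 3 := one_le_pow₀ hKR
  refine ⟨⌊Real.sqrt ((y : ℝ) * (K : ℝ) ^ 3)⌋₊, ?_⟩
  have hsub : (Ioc x (x + y)).filter (fun n => Leh n ∧ ∀ p, p.Prime → p ∣ n → p ∈ P) ⊆
      (Ioc x (x + y)).filter (fun n => Leh n ∧ (∀ p, p.Prime → p ∣ n → p ∈ P) ∧
        n.primeFactors.card ≤ K) := by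
    intro n hn
    rw [mem_filter, mem_Ioc] at hn ⊢
    exact ⟨hn.1, hn.2.1, hn.2.2, hKω n hn.2.1.1.le (by omega)⟩
  refine (Nat.cast_le.2 (card_le_card hsub)).trans ((prime_set P σ hσ0 hσ2 x y K hy hK1).trans ?_)
  have hQ0 : 0 ≤ ∏ p ∈ PZ P ⌊Real.sqrt ((y : ℝ) * (K : ℝ) ^ 3)⌋₊, (1 + (p : ℝ) ^ (-σ)) :=
    prod_nonneg fun p _ => by positivity
  apply mul_le_mul_of_nonneg_right _ hQ0
  rw [hXe]
  have h1 : ((y : ℝ) * (K : ℝ) ^ 3) ^ (σ / 2) ≤ (y : ℝ) ^ (σ / 2) * (K : ℝ) ^ 3 := by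
    rw [Real.mul_rpow (by linarith) (by positivity)]
    apply mul_le_mul_of_nonneg_left _ (by positivity)
    calc ((K : ℝ) ^ 3) ^ (σ / 2) ≤ ((K : ℝ) ^ 3) ^ (1 : ℝ) :=
          Real.rpow_le_rpow_of_exponent_le hK3 (by linarith)
      _ = _ := Real.rpow_one _
  have h2 : (K : ℝ) ^ 3 ≤ C1 ^ 3 * (X : ℝ) ^ η := by
    calc (K : ℝ) ^ 3 ≤ (C1 * (X : ℝ) ^ (η / 3)) ^ 3 := pow_le_pow_left₀ (by linarith) hKX 3
      _ = C1 ^ 3 * (X : ℝ) ^ η := by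
          rw [mul_pow, ← Real.rpow_natCast ((X : ℝ) ^ (η / 3)) 3, ← Real.rpow_mul hX0.le]
          congr 2
          push_cast
          ring
  calc 514 * ((y : ℝ) * (K : ℝ) ^ 3) ^ (σ / 2) ≤ 514 * ((y : ℝ) ^ (σ / 2) * (K : ℝ) ^ 3) :=
        mul_le_mul_of_nonneg_left h1 (by norm_num)
    _ ≤ 514 * ((y : ℝ) ^ (σ / 2) * (C1 ^ 3 * (X : ℝ) ^ η)) := by
        apply mul_le_mul_of_nonneg_left _ (by norm_num)
        exact mul_le_mul_of_nonneg_left h2 (by positivity)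
    _ = _ := by ring

open Classical in
/-- **Lehmer numbers whose primes lie in a sparse set.** -/
theorem sparse_count (P : Set ℕ) (θ B ε : ℝ) (hθ0 : 0 ≤ θ) (hθ1 : θ ≤ 1) (hB : 0 ≤ B)
    (hP : ∀ t : ℕ, 1 ≤ t → ((PZ P t).card : ℝ) ≤ B * (t : ℝ) ^ θ) (hε : 0 < ε) :
    ∃ C : ℝ, 0 < C ∧ ∀ x y : ℕ, 1 ≤ y →
      (((Ioc x (x + y)).filter (fun n => Leh n ∧ ∀ p, p.Prime → p ∣ n → p ∈ P)).card : ℝ) ≤
      C * (y : ℝ) ^ (θ / 2) * ((x : ℝ) + y) ^ ε := by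
  obtain ⟨δ, hδ0, hδ1, hδε⟩ : ∃ δ : ℝ, 0 < δ ∧ δ ≤ 1 ∧ δ ≤ ε :=
    ⟨min 1 ε, lt_min one_pos hε, min_le_left _ _, min_le_right _ _⟩
  obtain ⟨C1, hC1, h1⟩ := prime_set_X (ε / 2) (by positivity)
  obtain ⟨C2, hC2, h2⟩ := sparse_prod P θ B δ hθ0 hδ0 hB hP
  refine ⟨C1 * C2, by positivity, ?_⟩
  intro x y hy
  obtain ⟨Z, hZ⟩ := h1 P (θ + δ) (by linarith) (by linarith) x y hy
  refine hZ.trans ?_
  have hyR : (1 : ℝ) ≤ y := by exact_mod_cast hy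
  have hy0 : (0 : ℝ) < y := by linarith
  have hx0 : (0 : ℝ) ≤ x := Nat.cast_nonneg x
  have hX0 : (0 : ℝ) < (x : ℝ) + y := by linarith
  have hX1 : (1 : ℝ) ≤ (x : ℝ) + y := by linarith
  have e1 : (y : ℝ) ^ ((θ + δ) / 2) = (y : ℝ) ^ (θ / 2) * (y : ℝ) ^ (δ / 2) := by
    rw [← Real.rpow_add hy0]
    congr 1
    ring
  have e2 : (y : ℝ) ^ (δ / 2) ≤ ((x : ℝ) + y) ^ (ε / 2) := by
    calc (y : ℝ) ^ (δ / 2) ≤ ((x : ℝ) + y) ^ (δ / 2) :=
          Real.rpow_le_rpow hy0.le (by linarith) (by linarith)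
      _ ≤ ((x : ℝ) + y) ^ (ε / 2) := Real.rpow_le_rpow_of_exponent_le hX1 (by linarith)
  have e3 : ((x : ℝ) + y) ^ ε = ((x : ℝ) + y) ^ (ε / 2) * ((x : ℝ) + y) ^ (ε / 2) := by
    rw [← Real.rpow_add hX0]
    congr 1
    ring
  rw [e1, e3]
  calc C1 * ((y : ℝ) ^ (θ / 2) * (y : ℝ) ^ (δ / 2)) * ((x : ℝ) + y) ^ (ε / 2) *
        ∏ p ∈ PZ P Z, (1 + (p : ℝ) ^ (-(θ + δ))) ≤
      C1 * ((y : ℝ) ^ (θ / 2) * (y : ℝ) ^ (δ / 2)) * ((x : ℝ) + y) ^ (ε / 2) * C2 :=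
        mul_le_mul_of_nonneg_left (h2 Z) (by positivity)
    _ ≤ C1 * ((y : ℝ) ^ (θ / 2) * ((x : ℝ) + y) ^ (ε / 2)) * ((x : ℝ) + y) ^ (ε / 2) * C2 := by
        apply mul_le_mul_of_nonneg_right _ (by linarith)
        apply mul_le_mul_of_nonneg_right _ (by positivity)
        apply mul_le_mul_of_nonneg_left _ (by linarith)
        exact mul_le_mul_of_nonneg_left e2 (by positivity)
    _ = _ := by ring

/-- growth -/
theorem growth (A a η : ℝ) (hA : 0 ≤ A) (ha0 : 0 < a) (ha1 : a ≤ 1) (hη : 0 < η) :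
    ∃ C : ℝ, 0 ≤ C ∧ ∀ L : ℝ, 1 ≤ L → L ^ (1 - a) * (1 + A * Real.log L) ≤ η * L + C := by
  set M : ℝ := 1 + 2 * A / a with hM
  have hM1 : 1 ≤ M := by
    have : 0 ≤ 2 * A / a := by positivity
    linarith
  set L0 : ℝ := (M / η) ^ (2 / a) with hL0
  have hL00 : 0 < L0 := by rw [hL0]; positivity
  refine ⟨M * L0 ^ (1 - a / 2), by positivity, ?_⟩
  intro L hL
  have hLpos : 0 < L := by linarith
  have h1 : Real.log L ≤ L ^ (a / 2) / (a / 2) := Real.log_le_rpow_div hLpos.le (by positivity)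
  have h2 : (1 : ℝ) ≤ L ^ (a / 2) := Real.one_le_rpow hL (by positivity)
  have h3 : 1 + A * Real.log L ≤ M * L ^ (a / 2) := by
    have h4 : A * Real.log L ≤ A * (L ^ (a / 2) / (a / 2)) := mul_le_mul_of_nonneg_left h1 hA
    have h5 : A * (L ^ (a / 2) / (a / 2)) = 2 * A / a * L ^ (a / 2) := by field_simp
    rw [hM, add_mul, one_mul]
    linarith
  have h4 : L ^ (1 - a) * (1 + A * Real.log L) ≤ M * L ^ (1 - a / 2) := by
    calc L ^ (1 - a) * (1 + A * Real.log L) ≤ L ^ (1 - a) * (M * L ^ (a / 2)) :=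
          mul_le_mul_of_nonneg_left h3 (by positivity)
      _ = M * (L ^ (1 - a) * L ^ (a / 2)) := by ring
      _ = M * L ^ (1 - a / 2) := by
          rw [← Real.rpow_add hLpos]
          congr 2
          ring
  refine h4.trans ?_
  rcases le_or_gt L0 L with h5 | h5
  · have h6 : M / η ≤ L ^ (a / 2) := by
      have h7 : L0 ^ (a / 2) ≤ L ^ (a / 2) := Real.rpow_le_rpow hL00.le h5 (by positivity)
      have h8 : L0 ^ (a / 2) = M / η := by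
        rw [hL0, ← Real.rpow_mul (by positivity)]
        have : 2 / a * (a / 2) = 1 := by field_simp
        rw [this, Real.rpow_one]
      rwa [h8] at h7
    have h7 : M * L ^ (1 - a / 2) ≤ η * L := by
      rw [div_le_iff₀ hη] at h6
      calc M * L ^ (1 - a / 2) ≤ (L ^ (a / 2) * η) * L ^ (1 - a / 2) :=
            mul_le_mul_of_nonneg_right h6 (by positivity)
        _ = η * (L ^ (a / 2) * L ^ (1 - a / 2)) := by ring
        _ = η * L := by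
            rw [← Real.rpow_add hLpos]
            congr 1
            have : a / 2 + (1 - a / 2) = 1 := by ring
            rw [this, Real.rpow_one]
    have h8 : 0 ≤ M * L0 ^ (1 - a / 2) := by positivity
    linarith
  · have h6 : L ^ (1 - a / 2) ≤ L0 ^ (1 - a / 2) := Real.rpow_le_rpow hLpos.le h5.le (by linarith)
    have h7 : M * L ^ (1 - a / 2) ≤ M * L0 ^ (1 - a / 2) := mul_le_mul_of_nonneg_left h6 (by linarith)
    have h8 : 0 ≤ η * L := by positivity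
    linarith

/-- the product over the primes up to a power of the logarithm -/
theorem friable_prod (A δ η : ℝ) (hA : 1 ≤ A) (hδ0 : 0 < δ) (hδ1 : δ ≤ 1 / A) (hη : 0 < η) :
    ∃ C : ℝ, 1 ≤ C ∧ ∀ X : ℝ, 1 ≤ X → ∀ Z : ℕ,
      ∏ p ∈ PZ {p : ℕ | (p : ℝ) ≤ (Real.log X) ^ A} Z, (1 + (p : ℝ) ^ (-(1 - 1 / A + δ))) ≤
        C * X ^ η := by
  classical
  have hA0 : 0 < A := by linarith
  obtain ⟨C, hC, hgr⟩ := growth A (A * δ) η hA0.le (by positivity) (by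
    rw [le_div_iff₀ hA0] at hδ1; linarith) hη
  refine ⟨Real.exp C, Real.one_le_exp hC, ?_⟩
  intro X hX Z
  have hX0 : 0 < X := by linarith
  obtain ⟨L, hL⟩ : ∃ L : ℝ, L = Real.log X := ⟨_, rfl⟩
  rw [← hL]
  have hL0 : 0 ≤ L := by rw [hL]; exact Real.log_nonneg hX
  set σ : ℝ := 1 - 1 / A + δ with hσ
  have hXη : X ^ η = Real.exp (η * L) := by
    rw [Real.rpow_def_of_pos hX0, hL, mul_comm]
  have hexp : Real.exp C * X ^ η = Real.exp (η * L + C) := by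
    rw [hXη, ← Real.exp_add, add_comm]
  rw [hexp]
  rcases lt_or_ge L 1 with hL1 | hL1
  · have h0 : PZ {p : ℕ | (p : ℝ) ≤ L ^ A} Z = ∅ := by
      rw [Finset.eq_empty_iff_forall_notMem]
      intro p hp
      rw [mem_PZ] at hp
      have h1 : (p : ℝ) ≤ L ^ A := hp.2.2
      have h2 : L ^ A ≤ 1 := Real.rpow_le_one hL0 hL1.le hA0.le
      have h3 : (2 : ℝ) ≤ p := by exact_mod_cast hp.2.1.two_le
      linarith
    rw [h0, prod_empty]
    apply Real.one_le_exp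
    positivity
  · have hLpos : 0 < L := by linarith
    obtain ⟨W, hW⟩ : ∃ W : ℕ, W = ⌊L ^ A⌋₊ := ⟨_, rfl⟩
    have hW1 : 1 ≤ W := by
      rw [hW]
      apply Nat.le_floor
      rw [Nat.cast_one]
      exact Real.one_le_rpow hL1 hA0.le
    have hWL : (W : ℝ) ≤ L ^ A := by rw [hW]; exact Nat.floor_le (by positivity)
    have h1 : ∏ p ∈ PZ {p : ℕ | (p : ℝ) ≤ L ^ A} Z, (1 + (p : ℝ) ^ (-σ)) ≤
        Real.exp (∑ p ∈ PZ {p : ℕ | (p : ℝ) ≤ L ^ A} Z, (p : ℝ) ^ (-σ)) := by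
      rw [Real.exp_sum]
      apply prod_le_prod
      · intro p _
        positivity
      · intro p _
        rw [add_comm]
        exact Real.add_one_le_exp _
    refine h1.trans (Real.exp_le_exp.2 ?_)
    have hexpo : L ^ (A * (1 - σ)) = L ^ (1 - A * δ) := by
      congr 1
      rw [hσ]
      field_simp
      ring
    have hσ1 : 0 ≤ 1 - σ := by rw [hσ]; linarith
    have h2 : ∑ p ∈ PZ {p : ℕ | (p : ℝ) ≤ L ^ A} Z, (p : ℝ) ^ (-σ) ≤
        ∑ m ∈ Icc 1 W, L ^ (A * (1 - σ)) * (1 / (m : ℝ)) := by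
      calc ∑ p ∈ PZ {p : ℕ | (p : ℝ) ≤ L ^ A} Z, (p : ℝ) ^ (-σ) ≤
          ∑ p ∈ PZ {p : ℕ | (p : ℝ) ≤ L ^ A} Z, L ^ (A * (1 - σ)) * (1 / (p : ℝ)) := by
            apply sum_le_sum
            intro p hp
            rw [mem_PZ] at hp
            have hp0 : (0 : ℝ) < p := by exact_mod_cast hp.1.1
            have hpL : (p : ℝ) ≤ L ^ A := hp.2.2
            have e1 : (p : ℝ) ^ (-σ) = (p : ℝ) ^ (1 - σ) * (1 / (p : ℝ)) := by
              rw [show -σ = (1 - σ) + (-1) by ring, Real.rpow_add hp0, Real.rpow_neg_one, one_div]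
            rw [e1]
            apply mul_le_mul_of_nonneg_right _ (by positivity)
            calc (p : ℝ) ^ (1 - σ) ≤ (L ^ A) ^ (1 - σ) := Real.rpow_le_rpow hp0.le hpL hσ1
              _ = L ^ (A * (1 - σ)) := by rw [← Real.rpow_mul hL0]
        _ ≤ _ := by
            apply sum_le_sum_of_subset_of_nonneg
            · intro p hp
              rw [mem_PZ] at hp
              rw [mem_Icc]
              refine ⟨hp.1.1, ?_⟩
              rw [hW]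
              exact Nat.le_floor hp.2.2
            · intro m _ _
              positivity
    refine h2.trans ?_
    rw [← mul_sum, hexpo]
    have h3 : ∑ m ∈ Icc 1 W, 1 / (m : ℝ) ≤ 1 + A * Real.log L := by
      have h4 : ∑ m ∈ Icc 1 W, 1 / (m : ℝ) = (harmonic W : ℝ) := by
        rw [harmonic_eq_sum_Icc]
        push_cast
        simp only [one_div]
      rw [h4]
      refine (harmonic_le_one_add_log W).trans ?_
      have h5 : Real.log W ≤ Real.log (L ^ A) :=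
        Real.log_le_log (by exact_mod_cast hW1) hWL
      rw [Real.log_rpow hLpos] at h5
      linarith
    exact (mul_le_mul_of_nonneg_left h3 (by positivity)).trans (hgr L hL1)

open Classical in
/-- **Lehmer numbers without prime factors above a power of the logarithm.** -/
theorem friable_count (A ε : ℝ) (hA : 1 ≤ A) (hε : 0 < ε) :
    ∃ C : ℝ, 0 < C ∧ ∀ x y : ℕ, 1 ≤ y →
      (((Ioc x (x + y)).filter (fun n => Leh n ∧
        ∀ p : ℕ, p.Prime → p ∣ n → (p : ℝ) ≤ (Real.log ((x : ℝ) + y)) ^ A)).card : ℝ) ≤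
      C * (y : ℝ) ^ ((1 - 1 / A) / 2) * ((x : ℝ) + y) ^ ε := by
  have hA0 : 0 < A := by linarith
  have hA1 : 1 / A ≤ 1 := by rw [div_le_one hA0]; exact hA
  obtain ⟨δ, hδ0, hδ1, hδε⟩ : ∃ δ : ℝ, 0 < δ ∧ δ ≤ 1 / A ∧ δ ≤ ε :=
    ⟨min (1 / A) ε, lt_min (by positivity) hε, min_le_left _ _, min_le_right _ _⟩
  obtain ⟨C1, hC1, h1⟩ := prime_set_X (ε / 4) (by positivity)
  obtain ⟨C2, hC2, h2⟩ := friable_prod A δ (ε / 4) hA hδ0 hδ1 (by positivity)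
  refine ⟨C1 * C2, by positivity, ?_⟩
  intro x y hy
  have hyR : (1 : ℝ) ≤ y := by exact_mod_cast hy
  have hy0 : (0 : ℝ) < y := by linarith
  have hx0 : (0 : ℝ) ≤ x := Nat.cast_nonneg x
  have hX0 : (0 : ℝ) < (x : ℝ) + y := by linarith
  have hX1 : (1 : ℝ) ≤ (x : ℝ) + y := by linarith
  obtain ⟨Z, hZ⟩ := h1 {p : ℕ | (p : ℝ) ≤ (Real.log ((x : ℝ) + y)) ^ A} (1 - 1 / A + δ)
    (by linarith) (by linarith) x y hy
  simp only [Set.mem_ofPred_eq] at hZ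
  refine hZ.trans ?_
  have h3 := h2 ((x : ℝ) + y) hX1 Z
  have e1 : (y : ℝ) ^ ((1 - 1 / A + δ) / 2) = (y : ℝ) ^ ((1 - 1 / A) / 2) * (y : ℝ) ^ (δ / 2) := by
    rw [← Real.rpow_add hy0]
    congr 1
    ring
  have e2 : (y : ℝ) ^ (δ / 2) ≤ ((x : ℝ) + y) ^ (ε / 2) := by
    calc (y : ℝ) ^ (δ / 2) ≤ ((x : ℝ) + y) ^ (δ / 2) :=
          Real.rpow_le_rpow hy0.le (by linarith) (by linarith)
      _ ≤ ((x : ℝ) + y) ^ (ε / 2) := Real.rpow_le_rpow_of_exponent_le hX1 (by linarith)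
  have e3 : ((x : ℝ) + y) ^ ε =
      ((x : ℝ) + y) ^ (ε / 2) * ((x : ℝ) + y) ^ (ε / 4) * ((x : ℝ) + y) ^ (ε / 4) := by
    rw [← Real.rpow_add hX0, ← Real.rpow_add hX0]
    congr 1
    ring
  rw [e1, e3]
  calc C1 * ((y : ℝ) ^ ((1 - 1 / A) / 2) * (y : ℝ) ^ (δ / 2)) * ((x : ℝ) + y) ^ (ε / 4) *
        ∏ p ∈ PZ {p : ℕ | (p : ℝ) ≤ (Real.log ((x : ℝ) + y)) ^ A} Z,
          (1 + (p : ℝ) ^ (-(1 - 1 / A + δ))) ≤
      C1 * ((y : ℝ) ^ ((1 - 1 / A) / 2) * (y : ℝ) ^ (δ / 2)) * ((x : ℝ) + y) ^ (ε / 4) *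
        (C2 * ((x : ℝ) + y) ^ (ε / 4)) := mul_le_mul_of_nonneg_left h3 (by positivity)
    _ ≤ C1 * ((y : ℝ) ^ ((1 - 1 / A) / 2) * ((x : ℝ) + y) ^ (ε / 2)) *
        ((x : ℝ) + y) ^ (ε / 4) * (C2 * ((x : ℝ) + y) ^ (ε / 4)) := by
        apply mul_le_mul_of_nonneg_right _ (by positivity)
        apply mul_le_mul_of_nonneg_right _ (by positivity)
        apply mul_le_mul_of_nonneg_left _ (by linarith)
        exact mul_le_mul_of_nonneg_left e2 (by positivity)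
    _ = _ := by ring

end Pool.Agent.NH3.LT
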